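import Mathlib

/-!
# Reduction modulo large primes
-/

set_option autoImplicit false

namespace Pool.Agent.Lib22a066

universe u

instance isJacobsonRing_int : IsJacobsonRing ℤ := by
  rw [isJacobsonRing_iff_prime_eq]
  intro P hP
  by_cases h : P = ⊥
  · rw [h, eq_bot_iff]
    intro x hx
    have h1 := (Ideal.mem_jacobson_bot.mp hx) x
    rw [Int.isUnit_iff] at h1
    rw [Ideal.mem_bot]
    rcases h1 with h1 | h1 <;> nlinarith
  · have : P.IsMaximal := IsPrime.to_maximal_ideal h
    exact Ideal.jacobson_eq_self_of_isMaximal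

/-- A finite subset of a field of characteristic zero is contained in a subring which maps to an
algebraically closed field of large characteristic. -/
lemma exists_large_char (k : Type u) [Field k] [CharZero k] (S : Set k) (hS : S.Finite) (N : ℕ) :
    ∃ (A : Subring k), S ⊆ A ∧ ∃ (L : Type u) (_ : Field L) (p : ℕ) (_ : Fact p.Prime)
      (_ : CharP L p) (_ : PerfectRing L p) (_ : A →+* L), N < p := by
  classical
  set u : k := ((N.factorial : k))⁻¹ with hu
  have hN0 : (N.factorial : k) ≠ 0 := by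
    exact_mod_cast Nat.factorial_ne_zero N
  set A0 : Subalgebra ℤ k := Algebra.adjoin ℤ (S ∪ {u}) with hA0
  have hft : Algebra.FiniteType ℤ A0 :=
    Algebra.FiniteType.adjoin_of_finite (hS.union (Set.finite_singleton _))
  obtain ⟨M, hM⟩ := Ideal.exists_maximal A0
  let _ : Field (A0 ⧸ M) := Ideal.Quotient.field M
  have hfin : Module.Finite ℤ (A0 ⧸ M) := finite_of_finite_type_of_isJacobsonRing ℤ (A0 ⧸ M)
  obtain ⟨p, hp⟩ := CharP.exists (A0 ⧸ M)
  have hp0 : p ≠ 0 := by
    rintro rfl
    have : CharZero (A0 ⧸ M) := CharP.charP_to_charZero _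
    have h1 : IsField ℤ := isField_of_isIntegral_of_isField (R := ℤ) (S := A0 ⧸ M)
      (by
        intro a b hab
        have h2 : ((a : ℤ) : A0 ⧸ M) = ((b : ℤ) : A0 ⧸ M) := by
          rw [← eq_intCast (algebraMap ℤ (A0 ⧸ M)) a, ← eq_intCast (algebraMap ℤ (A0 ⧸ M)) b]
          exact hab
        exact Int.cast_injective h2) (Field.toIsField _)
    exact Int.not_isField h1
  have hpp : p.Prime := (CharP.char_is_prime_or_zero (A0 ⧸ M) p).resolve_right hp0
  have : Fact p.Prime := ⟨hpp⟩
  have huA : u ∈ A0 := Algebra.subset_adjoin (Or.inr rfl)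
  have hNp : N < p := by
    by_contra hle
    push Not at hle
    have h1 : p ∣ N.factorial := (Nat.Prime.dvd_factorial hpp).mpr hle
    have h2 : ((N.factorial : ℕ) : A0 ⧸ M) = 0 := (CharP.cast_eq_zero_iff (A0 ⧸ M) p _).mpr h1
    have h3 : (Ideal.Quotient.mk M (⟨u, huA⟩ : A0)) * ((N.factorial : ℕ) : A0 ⧸ M) = 1 := by
      rw [← map_natCast (Ideal.Quotient.mk M), ← map_mul, ← map_one (Ideal.Quotient.mk M)]
      congr 1
      apply Subtype.ext
      simp only [MulMemClass.coe_mul, OneMemClass.coe_one]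
      rw [hu]
      simp [hN0]
    rw [h2, mul_zero] at h3
    exact zero_ne_one h3
  have : CharP (AlgebraicClosure (A0 ⧸ M)) p :=
    charP_of_injective_algebraMap (algebraMap (A0 ⧸ M) (AlgebraicClosure (A0 ⧸ M))).injective p
  have hperf : PerfectRing (AlgebraicClosure (A0 ⧸ M)) p :=
    PerfectRing.ofSurjective _ p fun _ => IsAlgClosed.exists_pow_nat_eq _ hpp.pos
  refine ⟨A0.toSubring, ?_, AlgebraicClosure (A0 ⧸ M), inferInstance, p, inferInstance,
    inferInstance, hperf, ?_, hNp⟩
  · intro x hx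
    exact Algebra.subset_adjoin (Or.inl hx)
  · exact (algebraMap (A0 ⧸ M) (AlgebraicClosure (A0 ⧸ M))).comp (Ideal.Quotient.mk M)

end Pool.Agent.Lib22a066
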