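import Pool.Agent.Lib_MP_22a066_ag.Transfer

/-!
# The transfer theorem
-/

set_option autoImplicit false

namespace Pool.Agent.Lib22a066

open MvPolynomial

set_option linter.unusedSectionVars false

/-- Generalised inverse of a linear map over a field. -/
lemma exists_gen_inverse {k V W : Type*} [Field k] [AddCommGroup V] [Module k V]
    [AddCommGroup W] [Module k W] (τ : V →ₗ[k] W) :
    ∃ S : W →ₗ[k] V, ∀ x, τ (S (τ x)) = τ x := by
  obtain ⟨g, hg⟩ := LinearMap.exists_rightInverse_of_surjective τ.rangeRestrict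
    (LinearMap.range_rangeRestrict τ)
  obtain ⟨S, hS⟩ := LinearMap.exists_extend g
  refine ⟨S, fun x => ?_⟩
  have h1 : S (τ x) = g (τ.rangeRestrict x) := by
    rw [← hS]
    rfl
  rw [h1]
  have h2 := DFunLike.congr_fun hg (τ.rangeRestrict x)
  have h3 := congrArg Subtype.val h2
  simpa using h3

universe v

section

variable {σ : Type*} [Fintype σ] [DecidableEq σ] {s : Type*} [Fintype s] [DecidableEq s]
  {k : Type*} [Field k]

lemma mem_low_of_coeff {c : s → σ → k} {l : s → σ} {M D : ℕ} {f : MvPolynomial σ k}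
    (hf : f ∈ symb c l M) (hD : ∀ α, coeff α f ≠ 0 → α.degree < D) :
    f ∈ low (symb c l M) D := by
  rw [← sum_homogeneousComponent f]
  refine Ideal.sum_mem _ fun i _ => ?_
  by_cases hi : i < D
  · exact mem_low (homComp_mem_symb hf i) hi (homogeneousComponent_isHomogeneous i f)
  · have : homogeneousComponent i f = 0 := by
      ext α
      rw [coeff_homogeneousComponent, coeff_zero]
      split_ifs with h
      · by_contra hne
        have := hD α hne
        omega
      · rfl
    rw [this]
    exact Ideal.zero_mem _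

/-- Polynomials from coefficient vectors. -/
noncomputable def EE (k : Type*) [Field k] (σ : Type*) [Fintype σ] [DecidableEq σ] (D : ℕ) :
    ({α // α ∈ Mon σ D} → k) →ₗ[k] MvPolynomial σ k :=
  Fintype.linearCombination k (fun ω : {α // α ∈ Mon σ D} => monomial ω.1 (1 : k))

lemma EE_single {D : ℕ} (ω : {α // α ∈ Mon σ D}) :
    EE k σ D (Pi.single ω 1) = monomial ω.1 1 := by
  unfold EE
  rw [Fintype.linearCombination_apply_single, one_smul]

lemma EE_coeff {D : ℕ} (x : {α // α ∈ Mon σ D} → k) (α : σ →₀ ℕ)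
    (h : coeff α (EE k σ D x) ≠ 0) : α.degree < D := by
  unfold EE at h
  rw [Fintype.linearCombination_apply, coeff_sum] at h
  obtain ⟨ω, _, hω⟩ := Finset.exists_ne_zero_of_sum_ne_zero h
  rw [coeff_smul, coeff_monomial] at hω
  by_cases h2 : ω.1 = α
  · rw [← h2]
    exact mem_Mon.mp ω.2
  · rw [if_neg h2, smul_zero] at hω
    exact absurd rfl hω

/-- Over a field the low degree part of the symbolic power has generators of the shape `bb`. -/
lemma exists_Sp (c : s → σ → k) (l : s → σ) (m D : ℕ) :
    ∃ Sp : s → (σ →₀ ℕ) → MvPolynomial σ k, bI c l m D Sp ≤ low (symb c l m) D := by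
  let τ : ({α // α ∈ Mon σ D} → k) →ₗ[k] (s × {α // α ∈ Mon σ D} → k) :=
    LinearMap.pi (fun x => (tau c l m x.1 x.2.1).comp (EE k σ D))
  obtain ⟨S, hS⟩ := exists_gen_inverse τ
  refine ⟨fun i α => if h : α ∈ Mon σ D then EE k σ D (S (Pi.single (i, ⟨α, h⟩) 1)) else 0, ?_⟩
  unfold bI
  rw [Ideal.span_le]
  rintro _ ⟨ω, hω, rfl⟩
  have hω' : ω ∈ Mon σ D := hω
  set e : {α // α ∈ Mon σ D} → k := Pi.single ⟨ω, hω'⟩ 1 with he
  have hE : EE k σ D e = monomial ω 1 := EE_single _
  have hkey : bb c l m D (fun i α => if h : α ∈ Mon σ D then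
      EE k σ D (S (Pi.single (i, ⟨α, h⟩) 1)) else 0) ω = EE k σ D (e - S (τ e)) := by
    unfold bb
    rw [map_sub, hE]
    congr 1
    have h1 : τ e = ∑ x : s × {α // α ∈ Mon σ D}, (τ e x) • Pi.single x (1 : k) := by
      have h2 := pi_eq_sum_univ' (τ e)
      conv_lhs => rw [h2]
    conv_rhs => rw [h1]
    rw [map_sum, map_sum, Fintype.sum_prod_type]
    refine Finset.sum_congr rfl fun i _ => ?_
    rw [← Finset.sum_coe_sort]
    refine Finset.sum_congr rfl fun α _ => ?_
    rw [map_smul, map_smul, smul_eq_C_mul]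
    have h3 : τ e (i, α) = tau c l m i α.1 (monomial ω 1) := by
      rw [← hE]
      rfl
    rw [h3]
    congr 1
    exact dif_pos α.2
  rw [hkey]
  refine mem_low_of_coeff ?_ (EE_coeff _)
  refine mem_symb_of_tau (D := D) (EE_coeff _) ?_
  intro i α hα
  have h2 : τ (e - S (τ e)) = 0 := by
    rw [map_sub, hS, sub_self]
  exact congrFun h2 (i, ⟨α, hα⟩)

/-- Lifting polynomials to a subring. -/
lemma exists_lift (A : Subring k) (f : MvPolynomial σ k) (h : ∀ α, coeff α f ∈ A) :
    ∃ g : MvPolynomial σ A, map A.subtype g = f := by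
  have : f ∈ (map (σ := σ) A.subtype).range := by
    rw [f.as_sum]
    refine Subring.sum_mem _ fun α _ => ?_
    refine ⟨monomial α ⟨coeff α f, h α⟩, ?_⟩
    rw [map_monomial]
    rfl
  exact this

/-- **Transfer.** A failure of `F ∈ (J')^t` over a field `k` is inherited by every field `L` which
receives a homomorphism from a subring of `k` containing a suitable finite set. -/
theorem transfer (c : s → σ → k) (l : s → σ) (m D N t d : ℕ) {F : MvPolynomial σ k}
    (hF : F.IsHomogeneous d) (hFN : F ∈ symb c l N) (hnot : F ∉ low (symb c l m) D ^ t) :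
    ∃ S : Set k, S.Finite ∧ ∀ (A : Subring k), S ⊆ A → ∀ (L : Type v) [Field L] (_ : A →+* L),
      ∃ (c' : s → σ → L) (F' : MvPolynomial σ L), F'.IsHomogeneous d ∧ F' ∈ symb c' l N ∧
        F' ∉ low (symb c' l m) D ^ t := by
  classical
  obtain ⟨Sp, hSp⟩ := exists_Sp c l m D
  obtain ⟨lam0, hlam0, hlamJ0⟩ := Submodule.exists_le_ker_of_notMem
    (p := (low (symb c l m) D ^ t).restrictScalars k) (v := F) hnot
  -- normalised functional
  set lam : MvPolynomial σ k →ₗ[k] k := (lam0 F)⁻¹ • lam0 with hlamdef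
  have hlam1 : lam F = 1 := by
    rw [hlamdef, LinearMap.smul_apply, smul_eq_mul, inv_mul_cancel₀ hlam0]
  have hlamJ : ∀ g ∈ low (symb c l m) D ^ t, lam g = 0 := by
    intro g hg
    have : lam0 g = 0 := hlamJ0 hg
    rw [hlamdef, LinearMap.smul_apply, this, smul_zero]
  set v : (σ →₀ ℕ) → k := fun α => if α.degree = d then lam (monomial α 1) else 0 with hv
  have hpr : ∀ f : MvPolynomial σ k, pr d v f = lam (homogeneousComponent d f) := by
    intro f
    have h1 : homogeneousComponent d f = ∑ α ∈ MonEq σ d, coeff α f • monomial α (1 : k) := by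
      ext β
      rw [coeff_homogeneousComponent, coeff_sum]
      by_cases hβ : β.degree = d
      · rw [if_pos hβ, Finset.sum_eq_single β]
        · rw [coeff_smul, coeff_monomial, if_pos rfl, smul_eq_mul, mul_one]
        · intro α _ hne
          rw [coeff_smul, coeff_monomial, if_neg hne, smul_zero]
        · intro hcon
          exact absurd (mem_MonEq.mpr hβ) hcon
      · rw [if_neg hβ]
        symm
        refine Finset.sum_eq_zero fun α hα => ?_
        rw [coeff_smul, coeff_monomial, if_neg, smul_zero]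
        rintro rfl
        exact hβ (mem_MonEq.mp hα)
    rw [h1, map_sum]
    unfold pr
    refine Finset.sum_congr rfl fun α hα => ?_
    rw [map_smul, smul_eq_mul, mul_comm, hv]
    simp only
    rw [if_pos (mem_MonEq.mp hα)]
  have hprF : pr d v F = 1 := by
    rw [hpr, homogeneousComponent_eq_self hF, hlam1]
  have hprJ : ∀ g ∈ low (symb c l m) D ^ t, pr d v g = 0 := by
    intro g hg
    rw [hpr]
    exact hlamJ _ (homComp_mem_low_pow t g hg d)
  have hbk : bI c l m D Sp ^ t ≤ low (symb c l m) D ^ t := Ideal.pow_right_mono hSp t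
  -- the finite set
  let S1 : Set k := Set.range (fun x : s × σ => c x.1 x.2)
  let S2 : Set k := ⋃ i : s, ⋃ α ∈ Mon σ D, (fun β => coeff β (Sp i α)) '' (Sp i α).support
  let S3 : Set k := v '' (MonEq σ d)
  let S4 : Set k := (fun β => coeff β F) '' F.support
  refine ⟨S1 ∪ S2 ∪ S3 ∪ S4, ?_, ?_⟩
  · refine ((Set.Finite.union ?_ ?_).union ?_).union ?_
    · exact Set.finite_range _
    · refine Set.finite_iUnion fun i => ?_
      refine Set.Finite.biUnion (Finset.finite_toSet _) fun α _ => ?_
      exact (Finset.finite_toSet _).image _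
    · exact (Finset.finite_toSet _).image _
    · exact (Finset.finite_toSet _).image _
  · intro A hSA L _ φ
    have hA1 : ∀ i j, c i j ∈ A := fun i j => hSA (Or.inl (Or.inl (Or.inl ⟨(i, j), rfl⟩)))
    have hA2 : ∀ i, ∀ α ∈ Mon σ D, ∀ β, coeff β (Sp i α) ∈ A := by
      intro i α hα β
      by_cases h0 : coeff β (Sp i α) = 0
      · rw [h0]
        exact A.zero_mem
      · refine hSA (Or.inl (Or.inl (Or.inr ?_)))
        refine Set.mem_iUnion.mpr ⟨i, Set.mem_iUnion₂.mpr ⟨α, hα, β, ?_, rfl⟩⟩
        exact Finset.mem_coe.mpr (mem_support_iff.mpr h0)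
    have hA3 : ∀ α, v α ∈ A := by
      intro α
      by_cases h0 : α.degree = d
      · exact hSA (Or.inl (Or.inr ⟨α, Finset.mem_coe.mpr (mem_MonEq.mpr h0), rfl⟩))
      · rw [hv]
        simp only
        rw [if_neg h0]
        exact A.zero_mem
    have hA4 : ∀ β, coeff β F ∈ A := by
      intro β
      by_cases h0 : coeff β F = 0
      · rw [h0]
        exact A.zero_mem
      · exact hSA (Or.inr ⟨β, Finset.mem_coe.mpr (mem_support_iff.mpr h0), rfl⟩)
    -- lifts
    let cA : s → σ → A := fun i j => ⟨c i j, hA1 i j⟩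
    have hSpl : ∀ i α, ∃ g : MvPolynomial σ A, α ∈ Mon σ D → map A.subtype g = Sp i α := by
      intro i α
      by_cases hα : α ∈ Mon σ D
      · obtain ⟨g, hg⟩ := exists_lift A (Sp i α) (hA2 i α hα)
        exact ⟨g, fun _ => hg⟩
      · exact ⟨0, fun h => absurd h hα⟩
    choose SpA hSpA using hSpl
    let vA : (σ →₀ ℕ) → A := fun α => ⟨v α, hA3 α⟩
    obtain ⟨FA, hFA⟩ := exists_lift A F hA4
    have hinj : Function.Injective A.subtype := Subtype.val_injective
    have hbImap : Ideal.map (map A.subtype) (bI cA l m D SpA) = bI c l m D Sp := by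
      unfold bI
      rw [Ideal.map_span, ← Set.image_comp]
      congr 1
      refine Set.image_congr fun ω hω => ?_
      rw [Function.comp_apply]
      rw [bb_map A.subtype cA l m D SpA ω]
      unfold bb
      congr 1
      refine Finset.sum_congr rfl fun i _ => ?_
      refine Finset.sum_congr rfl fun α hα => ?_
      simp only
      rw [hSpA i α hα]
      rfl
    have hprA : ∀ g ∈ bI cA l m D SpA ^ t, pr d vA g = 0 := by
      intro g hg
      apply hinj
      rw [pr_map, map_zero]
      have h1 : map A.subtype g ∈ bI c l m D Sp ^ t := by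
        rw [← hbImap, ← Ideal.map_pow]
        exact Ideal.mem_map_of_mem _ hg
      exact hprJ _ (hbk h1)
    have hprFA : pr d vA FA = 1 := by
      apply hinj
      rw [pr_map, map_one, hFA]
      exact hprF
    refine ⟨fun i j => φ (cA i j), map φ FA, ?_, ?_, ?_⟩
    · have : FA.IsHomogeneous d := by
        refine IsHomogeneous.of_map (f := A.subtype) hinj ?_
        rw [hFA]
        exact hF
      exact this.map φ
    · refine symb_map φ ?_
      refine symb_of_map A.subtype hinj ?_
      rw [hFA]
      exact hFN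
    · intro hcon
      have h1 : map φ FA ∈ bI (fun i j => φ (cA i j)) l m D (fun i α => map φ (SpA i α)) ^ t :=
        Ideal.pow_right_mono (low_le_bI _ l m D _) t hcon
      rw [← bI_map, ← Ideal.map_pow] at h1
      have h2 := pr_eq_zero_of_mem_map φ hprA h1
      rw [← pr_map, hprFA, map_one] at h2
      exact one_ne_zero h2

end

end Pool.Agent.Lib22a066
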