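import Pool.Agent.Lib_MP_22a066_ag.CharPFinal
import Pool.Agent.Lib_MP_22a066_ag.Transfer2
import Pool.Agent.Lib_MP_22a066_ag.ModP

/-!
# Assembly
-/

set_option autoImplicit false

namespace Pool.Agent.Lib22a066

open MvPolynomial

set_option linter.unusedSectionVars false

universe u

section

variable {σ : Type*} [Fintype σ] [DecidableEq σ] {s : Type*} [Fintype s] [Nonempty s]

theorem homog_char0 (k : Type u) [Field k] [CharZero k] (c : s → σ → k) (l : s → σ)
    (n m t d : ℕ) (hn : Fintype.card σ = n + 1) (hn2 : 2 ≤ n) (hm : 1 ≤ m) (ht : 1 ≤ t)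
    {F : MvPolynomial σ k} (hF : F.IsHomogeneous d)
    (hFmem : F ∈ symb c l (t * (m + n - 1))) :
    F ∈ low (symb c l m) (d / t) ^ t := by
  classical
  by_contra hnot
  obtain ⟨S, hS, hS2⟩ := transfer c l m (d / t) (t * (m + n - 1)) t d hF hFmem hnot
  obtain ⟨A, hSA, L, _, p, _, _, _, φ, hp⟩ := exists_large_char k S hS (t * (2 * d + t))
  obtain ⟨c', F', hF', hF'1, hF'2⟩ := hS2 A hSA L φ
  exact hF'2 (charp_main p c' l n m t d hn hn2 hm ht hp.le hF' hF'1)

theorem homog_charp (k : Type u) [Field k] (p : ℕ) [hp : Fact p.Prime] [CharP k p]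
    (c : s → σ → k) (l : s → σ)
    (n m t d : ℕ) (hn : Fintype.card σ = n + 1) (hn2 : 2 ≤ n) (hm : 1 ≤ m) (ht : 1 ≤ t)
    (hp1 : t * (2 * d + t) ≤ p)
    {F : MvPolynomial σ k} (hF : F.IsHomogeneous d)
    (hFmem : F ∈ symb c l (t * (m + n - 1))) :
    F ∈ low (symb c l m) (d / t) ^ t := by
  classical
  by_contra hnot
  obtain ⟨S, hS, hS2⟩ := transfer c l m (d / t) (t * (m + n - 1)) t d hF hFmem hnot
  have : CharP (AlgebraicClosure k) p :=
    charP_of_injective_algebraMap (algebraMap k (AlgebraicClosure k)).injective p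
  have hperf : PerfectRing (AlgebraicClosure k) p :=
    PerfectRing.ofSurjective _ p fun _ => IsAlgClosed.exists_pow_nat_eq _ hp.out.pos
  obtain ⟨c', F', hF', hF'1, hF'2⟩ := hS2 ⊤ (by intro x _; exact Subring.mem_top x)
    (AlgebraicClosure k) ((algebraMap k (AlgebraicClosure k)).comp (Subring.subtype ⊤))
  exact hF'2 (charp_main p c' l n m t d hn hn2 hm ht hp1 hF' hF'1)

/-- The homogeneous statement in the form `𝔪^t J^t`. -/
theorem homog_contain (k : Type u) [Field k] (c : s → σ → k) (l : s → σ)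
    (n m t d : ℕ) (hn : Fintype.card σ = n + 1) (hn2 : 2 ≤ n) (hm : 1 ≤ m) (ht : 1 ≤ t)
    (hk : CharZero k ∨ ∃ p : ℕ, p.Prime ∧ CharP k p ∧ t * (2 * d + t) ≤ p)
    {F : MvPolynomial σ k} (hF : F.IsHomogeneous d)
    (hFmem : F ∈ symb c l (t * (m + n - 1))) :
    F ∈ idealOfVars σ k ^ t * symb c l m ^ t := by
  refine mem_of_mem_low_pow (D := d / t) ht (Nat.mul_div_le d t) hF ?_
  rcases hk with hk | ⟨p, hp, hk, hp1⟩
  · exact homog_char0 k c l n m t d hn hn2 hm ht hF hFmem
  · have : Fact p.Prime := ⟨hp⟩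
    exact homog_charp k p c l n m t d hn hn2 hm ht hp1 hF hFmem

/-- Full containment in characteristic zero. -/
theorem contain_char0 (k : Type u) [Field k] [CharZero k] (c : s → σ → k) (l : s → σ)
    (n m t : ℕ) (hn : Fintype.card σ = n + 1) (hn2 : 2 ≤ n) (hm : 1 ≤ m) (ht : 1 ≤ t) :
    symb c l (t * (m + n - 1)) ≤ idealOfVars σ k ^ t * symb c l m ^ t := by
  intro F hF
  rw [← sum_homogeneousComponent F]
  refine Ideal.sum_mem _ fun d _ => ?_
  exact homog_contain k c l n m t d hn hn2 hm ht (Or.inl inferInstance)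
    (homogeneousComponent_isHomogeneous d F) (homComp_mem_symb hF d)

end

section

variable {k : Type*} [Field k] {σ : Type*} [DecidableEq σ]

/-- The ideal of a point in the frozen form equals the normalised one. -/
lemma frozen_eq_pid (p : σ → k) (l : σ) (hl : p l ≠ 0) :
    Ideal.span (Set.range (fun jl : σ × σ =>
      (X jl.1 * C (p jl.2) - X jl.2 * C (p jl.1) : MvPolynomial σ k))) =
      pid (fun j => p j / p l) l := by
  have hgen : ∀ j, (X j - C (p j / p l) * X l : MvPolynomial σ k) ∈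
      pid (fun j => p j / p l) l := by
    intro j
    by_cases h : j = l
    · subst h
      rw [div_self hl, C_1, one_mul, sub_self]
      exact Ideal.zero_mem _
    · exact Ideal.subset_span ⟨j, h, rfl⟩
  apply le_antisymm
  · rw [Ideal.span_le]
    rintro _ ⟨⟨j, i⟩, rfl⟩
    have h1 : (X j * C (p i) - X i * C (p j) : MvPolynomial σ k) =
        C (p i) * (X j - C (p j / p l) * X l) - C (p j) * (X i - C (p i / p l) * X l) := by
      have h2 : (C (p i) * C (p j / p l) : MvPolynomial σ k) = C (p j) * C (p i / p l) := by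
        rw [← C_mul, ← C_mul]
        congr 1
        ring
      linear_combination (X l) * h2
    simp only
    rw [h1]
    exact Ideal.sub_mem _ (Ideal.mul_mem_left _ _ (hgen j)) (Ideal.mul_mem_left _ _ (hgen i))
  · unfold pid
    rw [Ideal.span_le]
    rintro _ ⟨j, _, rfl⟩
    have h1 : (X j - C (p j / p l) * X l : MvPolynomial σ k) =
        C ((p l)⁻¹) * (X j * C (p l) - X l * C (p j)) := by
      have h2 : (C ((p l)⁻¹) * C (p l) : MvPolynomial σ k) = 1 := by
        rw [← C_mul, inv_mul_cancel₀ hl, C_1]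
      have h3 : (C ((p l)⁻¹) * C (p j) : MvPolynomial σ k) = C (p j / p l) := by
        rw [← C_mul]
        congr 1
        ring
      linear_combination (-X j) * h2 + (X l) * h3
    simp only
    rw [h1]
    exact Ideal.mul_mem_left _ _ (Ideal.subset_span ⟨(j, l), rfl⟩)

lemma frozen_iInf_eq {s : Type*} (p : s → σ → k) (l : s → σ) (hl : ∀ i, p i (l i) ≠ 0) (M : ℕ) :
    (⨅ i, (Ideal.span (Set.range (fun jl : σ × σ =>
      (X jl.1 * C (p i jl.2) - X jl.2 * C (p i jl.1) : MvPolynomial σ k)))) ^ M) =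
      symb (fun i j => p i j / p i (l i)) l M := by
  unfold symb
  refine iInf_congr fun i => ?_
  rw [frozen_eq_pid (p i) (l i) (hl i)]

end

end Pool.Agent.Lib22a066
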