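import Mathlib

/-!
# Ideals of points in normalised form

`pid c l` is the ideal of the point with coordinates `c` where `c l = 1`.
-/

set_option autoImplicit false

namespace Pool.Agent.Lib22a066

open MvPolynomial

variable {σ : Type*} [DecidableEq σ]

set_option linter.unusedSectionVars false

/-- The weight of an exponent vector: total degree in the variables other than `x_l`. -/
noncomputable def wt (l : σ) (α : σ →₀ ℕ) : ℕ := (α.erase l).degree

lemma wt_add (l : σ) (α β : σ →₀ ℕ) : wt l (α + β) = wt l α + wt l β := by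
  unfold wt
  rw [Finsupp.erase_add, map_add]

lemma wt_nsmul (l : σ) (n : ℕ) (α : σ →₀ ℕ) : wt l (n • α) = n * wt l α := by
  induction n with
  | zero => simp [wt]
  | succ n ih => rw [succ_nsmul, wt_add, ih]; ring

lemma wt_le_degree (l : σ) (α : σ →₀ ℕ) : wt l α ≤ α.degree := by
  unfold wt
  have h : α = Finsupp.single l (α l) + α.erase l := (Finsupp.single_add_erase l α).symm
  conv_rhs => rw [h]
  rw [map_add]
  omega

lemma wt_le_card [Fintype σ] (l : σ) (α : σ →₀ ℕ) {B : ℕ} (h : ∀ i, α i ≤ B) :
    wt l α ≤ B * (Fintype.card σ - 1) := by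
  unfold wt
  rw [Finsupp.degree_eq_sum]
  have : ∑ i, (α.erase l) i = ∑ i ∈ Finset.univ.erase l, α i := by
    rw [← Finset.add_sum_erase _ _ (Finset.mem_univ l)]
    rw [Finsupp.erase_same, zero_add]
    refine Finset.sum_congr rfl fun i hi => ?_
    rw [Finsupp.erase_ne (Finset.ne_of_mem_erase hi)]
  rw [this]
  calc ∑ i ∈ Finset.univ.erase l, α i ≤ ∑ i ∈ Finset.univ.erase l, B :=
        Finset.sum_le_sum fun i _ => h i
    _ = B * (Fintype.card σ - 1) := by
        rw [Finset.sum_const, Finset.card_erase_of_mem (Finset.mem_univ l), Finset.card_univ,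
          smul_eq_mul, mul_comm]

section

variable {K : Type*} [CommRing K]

/-- Coordinate change moving the point `c` to the coordinate point `e_l`. -/
noncomputable def th (c : σ → K) (l : σ) : MvPolynomial σ K →ₐ[K] MvPolynomial σ K :=
  aeval (fun j => if j = l then X l else X j + C (c j) * X l)

/-- Inverse coordinate change. -/
noncomputable def th' (c : σ → K) (l : σ) : MvPolynomial σ K →ₐ[K] MvPolynomial σ K :=
  aeval (fun j => if j = l then X l else X j - C (c j) * X l)

lemma th_th' (c : σ → K) (l : σ) (f : MvPolynomial σ K) : th c l (th' c l f) = f := by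
  have : (th c l).comp (th' c l) = AlgHom.id K _ := by
    ext1 j
    simp only [AlgHom.comp_apply, th', th, aeval_X, AlgHom.id_apply]
    by_cases h : j = l
    · subst h
      simp
    · simp [h]
  exact DFunLike.congr_fun this f

lemma th'_th (c : σ → K) (l : σ) (f : MvPolynomial σ K) : th' c l (th c l f) = f := by
  have : (th' c l).comp (th c l) = AlgHom.id K _ := by
    ext1 j
    simp only [AlgHom.comp_apply, th', th, aeval_X, AlgHom.id_apply]
    by_cases h : j = l
    · subst h
      simp
    · simp [h]
  exact DFunLike.congr_fun this f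

lemma th_injective (c : σ → K) (l : σ) : Function.Injective (th c l) :=
  Function.LeftInverse.injective (th'_th c l)

lemma th_isHomogeneous (c : σ → K) (l : σ) {f : MvPolynomial σ K} {n : ℕ}
    (hf : f.IsHomogeneous n) : (th c l f).IsHomogeneous n := by
  have := hf.aeval (fun j => if j = l then (X l : MvPolynomial σ K) else X j + C (c j) * X l)
    (n := 1) (by
      intro j
      split_ifs with h
      · exact isHomogeneous_X _ _
      · exact (isHomogeneous_X _ _).add (isHomogeneous_C_mul_X _ _))
  rw [one_mul] at this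
  exact this

lemma th_totalDegree_le (c : σ → K) (l : σ) (f : MvPolynomial σ K) :
    (th c l f).totalDegree ≤ f.totalDegree := by
  conv_lhs => rw [f.as_sum, map_sum]
  refine totalDegree_finsetSum_le fun α hα => ?_
  have h1 : (monomial α (coeff α f) : MvPolynomial σ K).IsHomogeneous α.degree :=
    isHomogeneous_monomial _ rfl
  exact (th_isHomogeneous c l h1).totalDegree_le.trans (le_totalDegree hα)

lemma th_map {K' : Type*} [CommRing K'] (φ : K →+* K') (c : σ → K) (l : σ)
    (f : MvPolynomial σ K) : map φ (th c l f) = th (fun j => φ (c j)) l (map φ f) := by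
  have : ((map φ).comp (th c l : MvPolynomial σ K →+* MvPolynomial σ K)) =
      (th (fun j => φ (c j)) l : MvPolynomial σ K' →+* MvPolynomial σ K').comp (map φ) := by
    refine MvPolynomial.ringHom_ext ?_ ?_
    · intro a
      simp [th]
    · intro j
      by_cases h : j = l
      · subst h
        simp [th]
      · simp [th, h]
  exact DFunLike.congr_fun this f

/-- The ideal generated by the variables other than `x_l`. -/
noncomputable def nid (K : Type*) [CommRing K] (l : σ) : Ideal (MvPolynomial σ K) :=
  Ideal.span (X '' {j | j ≠ l})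

/-- Polynomials all of whose monomials have weight at least `M`. -/
noncomputable def wid (K : Type*) [CommRing K] (l : σ) (M : ℕ) : Ideal (MvPolynomial σ K) where
  carrier := {f | ∀ α, coeff α f ≠ 0 → M ≤ wt l α}
  zero_mem' := by
    intro α h
    simp at h
  add_mem' := by
    intro f g hf hg α h
    by_cases h1 : coeff α f = 0
    · apply hg
      rw [coeff_add, h1, zero_add] at h
      exact h
    · exact hf α h1
  smul_mem' := by
    intro s f hf α h
    rw [smul_eq_mul, coeff_mul] at h
    obtain ⟨x, hx, hne⟩ := Finset.exists_ne_zero_of_sum_ne_zero h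
    rw [Finset.HasAntidiagonal.mem_antidiagonal] at hx
    have h2 : coeff x.2 f ≠ 0 := by
      intro h3
      rw [h3, mul_zero] at hne
      exact hne rfl
    have := hf x.2 h2
    rw [← hx, wt_add]
    omega

lemma mem_wid {l : σ} {M : ℕ} {f : MvPolynomial σ K} :
    f ∈ wid K l M ↔ ∀ α, coeff α f ≠ 0 → M ≤ wt l α := Iff.rfl

lemma wid_mul_le (l : σ) (M N : ℕ) : wid K l M * wid K l N ≤ wid K l (M + N) := by
  rw [Ideal.mul_le]
  intro f hf g hg α h
  rw [coeff_mul] at h
  obtain ⟨x, hx, hne⟩ := Finset.exists_ne_zero_of_sum_ne_zero h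
  rw [Finset.HasAntidiagonal.mem_antidiagonal] at hx
  have h1 : coeff x.1 f ≠ 0 := by
    intro h3
    rw [h3, zero_mul] at hne
    exact hne rfl
  have h2 : coeff x.2 g ≠ 0 := by
    intro h3
    rw [h3, mul_zero] at hne
    exact hne rfl
  rw [← hx, wt_add]
  have := hf _ h1
  have := hg _ h2
  omega

lemma nid_le (l : σ) : nid K l ≤ wid K l 1 := by
  unfold nid
  rw [Ideal.span_le]
  rintro _ ⟨j, hj, rfl⟩ α h
  rw [coeff_X] at h
  have hα : Finsupp.single j 1 = α := by
    by_contra hne
    rw [if_neg hne] at h
    exact h rfl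
  rw [← hα]
  unfold wt
  rw [Finsupp.erase_single_ne (Ne.symm hj)]
  simp

lemma nid_pow_le (l : σ) (M : ℕ) : nid K l ^ M ≤ wid K l M := by
  induction M with
  | zero =>
    intro f _ α _
    exact Nat.zero_le _
  | succ M ih =>
    rw [pow_succ]
    exact le_trans (Ideal.mul_mono ih (nid_le l)) (wid_mul_le l M 1)

lemma monomial_mem_nid_pow (l : σ) (α : σ →₀ ℕ) (a : K) :
    monomial α a ∈ nid K l ^ (wt l α) := by
  have h1 : (monomial α a : MvPolynomial σ K) =
      monomial (Finsupp.single l (α l)) a * monomial (α.erase l) 1 := by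
    rw [monomial_mul, Finsupp.single_add_erase, mul_one]
  rw [h1]
  refine Ideal.mul_mem_left _ _ ?_
  rw [monomial_eq, C_1, one_mul, Finsupp.prod]
  unfold wt
  rw [Finsupp.degree_apply, ← Finset.prod_pow_eq_pow_sum]
  refine Ideal.prod_mem_prod fun j hj => ?_
  refine Ideal.pow_mem_pow ?_ _
  refine Ideal.subset_span ⟨j, ?_, rfl⟩
  rintro rfl
  simp at hj

lemma wid_le_nid_pow (l : σ) (M : ℕ) : wid K l M ≤ nid K l ^ M := by
  intro f hf
  rw [f.as_sum]
  refine Ideal.sum_mem _ fun α hα => ?_
  have := hf α (mem_support_iff.mp hα)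
  exact Ideal.pow_le_pow_right this (monomial_mem_nid_pow l α _)

lemma nid_pow_eq (l : σ) (M : ℕ) : nid K l ^ M = wid K l M :=
  le_antisymm (nid_pow_le l M) (wid_le_nid_pow l M)

/-- The ideal of the point `c`, normalised by `c l = 1`. -/
noncomputable def pid (c : σ → K) (l : σ) : Ideal (MvPolynomial σ K) :=
  Ideal.span ((fun j => X j - C (c j) * X l) '' {j | j ≠ l})

lemma map_th'_nid (c : σ → K) (l : σ) : Ideal.map (th' c l) (nid K l) = pid c l := by
  unfold nid pid
  rw [Ideal.map_span]
  congr 1
  rw [← Set.image_comp]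
  refine Set.image_congr fun j hj => ?_
  simp only [Function.comp_apply, th', aeval_X]
  rw [if_neg hj]

lemma map_th_pid (c : σ → K) (l : σ) : Ideal.map (th c l) (pid c l) = nid K l := by
  unfold nid pid
  rw [Ideal.map_span]
  congr 1
  rw [← Set.image_comp]
  refine Set.image_congr fun j hj => ?_
  have hj' : j ≠ l := hj
  simp [th, hj']

/-- The basic criterion. -/
lemma mem_pid_pow_iff (c : σ → K) (l : σ) (M : ℕ) (f : MvPolynomial σ K) :
    f ∈ pid c l ^ M ↔ th c l f ∈ wid K l M := by
  constructor
  · intro h
    rw [← nid_pow_eq, ← map_th_pid c l, ← Ideal.map_pow]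
    exact Ideal.mem_map_of_mem _ h
  · intro h
    rw [← nid_pow_eq] at h
    have := Ideal.mem_map_of_mem (th' c l) h
    rw [Ideal.map_pow, map_th'_nid, th'_th] at this
    exact this

end

end Pool.Agent.Lib22a066
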