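import Pool.Agent.Lib_MP_22a066_ag.Frob
import Pool.Agent.Lib_MP_22a066_ag.PointIdeal

/-!
# Interaction of Frobenius coordinates with ideals of points
-/

set_option autoImplicit false

namespace Pool.Agent.Lib22a066

open MvPolynomial

set_option linter.unusedSectionVars false

variable {σ : Type*} [Fintype σ] [DecidableEq σ] {k : Type*} [Field k]

lemma th'_monomial_mem (c : σ → k) (l : σ) (α : σ →₀ ℕ) (a : k) :
    th' c l (monomial α a) ∈ pid c l ^ (wt l α) := by
  rw [← map_th'_nid, ← Ideal.map_pow]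
  exact Ideal.mem_map_of_mem _ (monomial_mem_nid_pow l α a)

section

variable (p : ℕ) [hp : Fact p.Prime] [CharP k p] [PerfectRing k p] (e : ℕ)

/-- Pigeonhole: high powers of the ideal of a point have all coordinates in a power. -/
lemma T_mem_pid (c : σ → k) (l : σ) (n m : ℕ) (hn : Fintype.card σ = n + 1) (hn1 : 1 ≤ n)
    (hm : 1 ≤ m) {G : MvPolynomial σ k} (hG : G ∈ pid c l ^ (p ^ e * (m + n - 1)))
    (β : σ →₀ ℕ) : T p e β G ∈ pid c l ^ m := by
  have hq : 0 < p ^ e := pow_pos hp.out.pos e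
  rw [mem_pid_pow_iff] at hG
  have h1 : G = ∑ α ∈ (th c l G).support, th' c l (monomial α (coeff α (th c l G))) := by
    conv_lhs => rw [← th'_th c l G, (th c l G).as_sum]
    rw [map_sum]
  rw [h1, map_sum]
  refine Ideal.sum_mem _ fun α hα => ?_
  have hw := hG α (mem_support_iff.mp hα)
  set a := coeff α (th c l G)
  have h2 : th' c l (monomial α a) =
      (th' c l (monomial (quo (p ^ e) α) 1)) ^ (p ^ e) * th' c l (monomial (rem (p ^ e) α) a) := by
    rw [← map_pow, ← map_mul, monomial_pow, monomial_mul, one_pow, one_mul, quo_add_rem]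
  rw [h2, T_pow_mul]
  refine Ideal.mul_mem_right _ _ ?_
  have h3 := th'_monomial_mem c l (quo (p ^ e) α) 1
  refine Ideal.pow_le_pow_right ?_ h3
  have h4 : wt l α = p ^ e * wt l (quo (p ^ e) α) + wt l (rem (p ^ e) α) := by
    conv_lhs => rw [← quo_add_rem (p ^ e) α]
    rw [wt_add, wt_nsmul]
  have h5 : wt l (rem (p ^ e) α) ≤ (p ^ e - 1) * n := by
    have := wt_le_card l (rem (p ^ e) α) (B := p ^ e - 1) (fun i => by
      have := Nat.mod_lt (α i) hq
      simp only [rem_apply]
      omega)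
    rw [hn] at this
    simpa using this
  by_contra hlt
  push Not at hlt
  obtain ⟨m', rfl⟩ : ∃ m', m = m' + 1 := ⟨m - 1, by omega⟩
  obtain ⟨n', rfl⟩ : ∃ n', n = n' + 1 := ⟨n - 1, by omega⟩
  obtain ⟨q', hq'⟩ : ∃ q', p ^ e = q' + 1 := ⟨p ^ e - 1, by omega⟩
  rw [hq'] at hw h4 h5
  have h6 : wt l (quo (q' + 1) α) ≤ m' := by
    rw [← hq']
    omega
  have h7 : (q' + 1) * wt l (quo (q' + 1) α) ≤ (q' + 1) * m' := Nat.mul_le_mul_left _ h6
  have h8 : m' + 1 + (n' + 1) - 1 = m' + n' + 1 := by omega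
  rw [h8] at hw
  have h9 : q' + 1 - 1 = q' := by omega
  rw [h9] at h5
  nlinarith

/-- Removing a factor of small degree from a `q`-th power. -/
lemma mem_pid_of_mul_pow (c : σ → k) (l : σ) (M : ℕ) {h N : MvPolynomial σ k} (hh : h ≠ 0)
    (hd : h.totalDegree < p ^ e) (hmem : h * N ^ (p ^ e) ∈ pid c l ^ (p ^ e * M)) :
    N ∈ pid c l ^ M := by
  have hq : 0 < p ^ e := pow_pos hp.out.pos e
  rw [mem_pid_pow_iff, map_mul, map_pow] at hmem
  rw [mem_pid_pow_iff]
  have hth : th c l h ≠ 0 := by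
    rw [Ne, map_eq_zero_iff _ (th_injective c l)]
    exact hh
  have hdeg : (th c l h).totalDegree < p ^ e := by
    have := th_totalDegree_le c l h
    omega
  obtain ⟨β, hβ⟩ := exists_coeff_ne_zero hth
  have hβ1 : β.degree ≤ (th c l h).totalDegree :=
    le_totalDegree (p := th c l h) (s := β) (mem_support_iff.mpr hβ)
  have hβ2 : ∀ i, β i < p ^ e := by
    intro i
    have := le_degree β i
    omega
  intro α hα
  have h1 : T p e β (th c l h * (th c l N) ^ (p ^ e)) =
      th c l N * C (root p e (coeff β (th c l h))) := by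
    rw [mul_comm, T_pow_mul, T_of_totalDegree_lt p e hdeg]
  have h2 : coeff α (T p e β (th c l h * (th c l N) ^ (p ^ e))) ≠ 0 := by
    rw [h1, mul_comm, coeff_C_mul]
    refine mul_ne_zero ?_ hα
    rw [Ne, map_eq_zero_iff _ (root p e).injective]
    exact hβ
  rw [coeff_T p e hβ2] at h2
  have h3 : coeff (p ^ e • α + β) (th c l h * (th c l N) ^ (p ^ e)) ≠ 0 := by
    intro h4
    rw [h4, map_zero] at h2
    exact h2 rfl
  have h5 := hmem _ h3
  rw [wt_add, wt_nsmul] at h5
  have h6 := wt_le_degree l β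
  by_contra hlt
  push Not at hlt
  obtain ⟨M', rfl⟩ : ∃ M', M = M' + 1 := ⟨M - 1, by omega⟩
  have h7 : wt l α ≤ M' := by omega
  have h8 := Nat.mul_le_mul_left (p ^ e) h7
  rw [Nat.mul_add, mul_one] at h5
  omega

end

end Pool.Agent.Lib22a066
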