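import Pool.Agent.Lib_MP_22a066_ag.CharPMain

/-!
# The containment in large characteristic over a perfect field
-/

set_option autoImplicit false

namespace Pool.Agent.Lib22a066

open MvPolynomial

set_option linter.unusedSectionVars false

variable {σ : Type*} [Fintype σ] [DecidableEq σ] {k : Type*} [Field k] {s : Type*} [Nonempty s]
  (p : ℕ) [hp : Fact p.Prime] [CharP k p] [PerfectRing k p]

theorem charp_main (c : s → σ → k) (l : s → σ) (n m t d : ℕ)
    (hn : Fintype.card σ = n + 1) (hn2 : 2 ≤ n) (hm : 1 ≤ m) (ht : 1 ≤ t)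
    (hp1 : t * (2 * d + t) ≤ p)
    {F : MvPolynomial σ k} (hF : F.IsHomogeneous d)
    (hFmem : F ∈ symb c l (t * (m + n - 1))) :
    F ∈ low (symb c l m) (d / t) ^ t := by
  classical
  by_cases hF0 : F = 0
  · rw [hF0]
    exact Ideal.zero_mem _
  have hpp := hp.out.pos
  have hFm := mem_symb.mp hFmem
  -- choice of A and δ
  obtain ⟨A, δ, hA, hδ⟩ : ∃ A δ, A * t = p + δ ∧ δ < t := by
    refine ⟨(p + t - 1) / t, ((p + t - 1) / t) * t - p, ?_, ?_⟩
    · have h1 := Nat.div_add_mod (p + t - 1) t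
      have h2 := Nat.mod_lt (p + t - 1) ht
      rw [mul_comm] at h1
      omega
    · have h1 := Nat.div_add_mod (p + t - 1) t
      have h2 := Nat.mod_lt (p + t - 1) ht
      rw [mul_comm] at h1
      omega
  have hA2 : 2 * d + t ≤ A := by
    have h1 : t * (2 * d + t) ≤ A * t := by omega
    rw [mul_comm A t] at h1
    exact Nat.le_of_mul_le_mul_left h1 ht
  have hAp : A ≤ p := by
    by_contra hlt
    push Not at hlt
    have h1 : (p + 1) * t ≤ A * t := Nat.mul_le_mul_right _ hlt
    rw [hA] at h1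
    have h2 : p ≤ p * t := Nat.le_mul_of_pos_right _ ht
    rw [add_mul, one_mul] at h1
    omega
  have hd := (Nat.div_add_mod d t).symm
  have hr : d % t < t := Nat.mod_lt _ ht
  have hDd : d / t ≤ d := Nat.div_le_self d t
  generalize d / t = D₀ at hd hDd ⊢
  generalize d % t = r₀ at hd hr
  set b := δ * D₀ + A * r₀ with hb
  have hdeg : d * A = p * D₀ + b := by
    have : d * A = (A * t) * D₀ + A * r₀ := by
      conv_lhs => rw [hd]
      ring
    rw [this, hA, hb]
    ring
  have hbd : b + d < p := by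
    have h1 : A * r₀ + A ≤ A * t := by
      calc A * r₀ + A = A * (r₀ + 1) := by ring
        _ ≤ A * t := Nat.mul_le_mul_left _ hr
    have h2 : δ * D₀ + δ + d < A := by
      have h3 : δ * (D₀ + 1) ≤ (t - 1) * (D₀ + 1) := Nat.mul_le_mul_right _ (by omega)
      have h4 : (t - 1) * (D₀ + 1) + (D₀ + 1) = t * D₀ + t := by
        calc (t - 1) * (D₀ + 1) + (D₀ + 1) = ((t - 1) + 1) * (D₀ + 1) := by ring
          _ = t * D₀ + t := by rw [Nat.sub_add_cancel ht]; ring
      rw [mul_add, mul_one] at h3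
      omega
    omega
  have hD : D₀ < p := by omega
  -- step 2
  have hstep : ∀ β, T p 1 β (F ^ A) ∈ low (symb c l m) D₀ := fun β =>
    T_pow_mem_low p c l n m t d A δ D₀ b hn hn2 hm hF hF0 hFm hA hAp hdeg hbd hD β
  -- step 3
  have h1 : F ^ A ∈ Ideal.map (iterateFrobenius (MvPolynomial σ k) p 1) (low (symb c l m) D₀) :=
    (mem_map_frob_iff p 1 _ _).mpr hstep
  have h2 := Ideal.pow_mem_pow h1 t
  rw [← pow_mul, hA, ← Ideal.map_pow, pow_add, mem_map_frob_iff] at h2
  have hδd : (F ^ δ).totalDegree < p ^ 1 := by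
    rw [pow_one]
    have h3 : (F ^ δ).totalDegree ≤ d * δ := (hF.pow δ).totalDegree_le
    have h4 : d * δ ≤ d * t := Nat.mul_le_mul_left _ hδ.le
    have h5 : t * (2 * d + t) = 2 * (d * t) + t * t := by ring
    have h6 : 0 < t * t := Nat.mul_pos ht ht
    omega
  obtain ⟨γ, hγ⟩ := exists_coeff_ne_zero (pow_ne_zero δ hF0)
  have h3 := h2 γ
  have h4 := T_pow_mul p 1 γ F (F ^ δ)
  rw [pow_one] at h4
  rw [h4, T_of_totalDegree_lt p 1 hδd] at h3
  set z := root p 1 (coeff γ (F ^ δ)) with hz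
  have hz0 : z ≠ 0 := by
    rw [hz, Ne, map_eq_zero_iff _ (root p 1).injective]
    exact hγ
  have h5 : F = F * C z * C z⁻¹ := by
    rw [mul_assoc, ← C_mul, mul_inv_cancel₀ hz0, C_1, mul_one]
  rw [h5]
  exact Ideal.mul_mem_right _ _ h3

end Pool.Agent.Lib22a066
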