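import Pool.Agent.Lib_MP_22a066_ag.Deriv

/-!
# The main theorem in large characteristic
-/

set_option autoImplicit false

namespace Pool.Agent.Lib22a066

open MvPolynomial

set_option linter.unusedSectionVars false

section

variable {σ : Type*} [DecidableEq σ] {K : Type*} [CommRing K] {s : Type*}

/-- The `m`-th symbolic power of the ideal of a family of normalised points. -/
noncomputable def symb (c : s → σ → K) (l : s → σ) (m : ℕ) : Ideal (MvPolynomial σ K) :=
  ⨅ i, pid (c i) (l i) ^ m

lemma mem_symb {c : s → σ → K} {l : s → σ} {m : ℕ} {f : MvPolynomial σ K} :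
    f ∈ symb c l m ↔ ∀ i, f ∈ pid (c i) (l i) ^ m := by
  unfold symb
  rw [Ideal.mem_iInf]

/-- The ideal generated by the forms of degree `< D` in `J`. -/
noncomputable def low (J : Ideal (MvPolynomial σ K)) (D : ℕ) : Ideal (MvPolynomial σ K) :=
  Ideal.span {f | f ∈ J ∧ ∃ j, j < D ∧ f.IsHomogeneous j}

lemma mem_low {J : Ideal (MvPolynomial σ K)} {D j : ℕ} {f : MvPolynomial σ K} (hf : f ∈ J)
    (hj : j < D) (hh : f.IsHomogeneous j) : f ∈ low J D :=
  Ideal.subset_span ⟨hf, j, hj, hh⟩

end

variable {σ : Type*} [Fintype σ] [DecidableEq σ] {k : Type*} [Field k] {s : Type*} [Nonempty s]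
  (p : ℕ) [hp : Fact p.Prime] [CharP k p] [PerfectRing k p]

/-- Step 2a: homogeneity of the coordinates. -/
lemma T_mem_low {J : Ideal (MvPolynomial σ k)} {G : MvPolynomial σ k} {D b : ℕ}
    (hG : G.IsHomogeneous (p * D + b)) (hb : b < p) (hJ : ∀ β, T p 1 β G ∈ J) (β : σ →₀ ℕ)
    (h : T p 1 β G ∉ low J D) : β.degree = b ∧ (T p 1 β G).IsHomogeneous D := by
  have h0 : T p 1 β G ≠ 0 := by
    intro h1
    rw [h1] at h
    exact h (Ideal.zero_mem _)
  obtain ⟨γ, hγ⟩ := exists_coeff_ne_zero h0
  have h1 := T_isHomogeneous p 1 hG hγ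
  rw [pow_one] at h1
  have h2 : (T p 1 β G).IsHomogeneous γ.degree := by
    intro γ' hγ'
    have h3 := T_isHomogeneous p 1 hG hγ'
    rw [pow_one] at h3
    have h4 : p * γ'.degree = p * γ.degree := by omega
    have h5 := Nat.eq_of_mul_eq_mul_left hp.out.pos h4
    rw [← h5, Finsupp.degree_eq_weight_one]
    rfl
  have h3 : γ.degree ≤ D := by
    by_contra hlt
    push Not at hlt
    have : p * (D + 1) ≤ p * γ.degree := Nat.mul_le_mul_left _ hlt
    rw [mul_add, mul_one] at this
    omega
  have h4 : γ.degree = D := by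
    by_contra hne
    exact h (mem_low (hJ β) (lt_of_le_of_ne h3 hne) h2)
  rw [h4] at h1 h2
  exact ⟨by omega, h2⟩

/-- Step 2: all coordinates of `F ^ A` are in the ideal generated by low degree forms. -/
theorem T_pow_mem_low (c : s → σ → k) (l : s → σ) (n m t d A δ D₀ b : ℕ)
    (hn : Fintype.card σ = n + 1) (hn2 : 2 ≤ n) (hm : 1 ≤ m)
    {F : MvPolynomial σ k} (hF : F.IsHomogeneous d) (hF0 : F ≠ 0)
    (hFmem : ∀ i, F ∈ pid (c i) (l i) ^ (t * (m + n - 1)))
    (hA : A * t = p + δ) (hAp : A ≤ p) (hdeg : d * A = p * D₀ + b)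
    (hbd : b + d < p) (hD : D₀ < p) (β₀ : σ →₀ ℕ) :
    T p 1 β₀ (F ^ A) ∈ low (symb c l m) D₀ := by
  classical
  have hpp := hp.out.pos
  set G := F ^ A with hGdef
  set J := symb c l m with hJdef
  have hGhom : G.IsHomogeneous (p * D₀ + b) := by
    rw [← hdeg]
    exact hF.pow A
  have hGpid : ∀ i, G ∈ pid (c i) (l i) ^ (p ^ 1 * (m + n - 1)) := by
    intro i
    have h1 := Ideal.pow_mem_pow (hFmem i) A
    rw [← pow_mul] at h1
    refine Ideal.pow_le_pow_right ?_ h1
    rw [pow_one]
    calc p * (m + n - 1) ≤ (p + δ) * (m + n - 1) := Nat.mul_le_mul_right _ (by omega)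
      _ = t * (m + n - 1) * A := by rw [← hA]; ring
  have hGJ : ∀ β, T p 1 β G ∈ J := by
    intro β
    rw [hJdef, mem_symb]
    intro i
    exact T_mem_pid p 1 (c i) (l i) n m hn (by omega) hm (hGpid i) β
  by_contra hβ₀
  -- a linear functional
  obtain ⟨lam, hlam0, hlamJ⟩ := Submodule.exists_le_ker_of_notMem
    (p := (low J D₀).restrictScalars k) (v := T p 1 β₀ G) hβ₀
  have hlam : ∀ f ∈ low J D₀, lam f = 0 := fun f hf => hlamJ hf
  have hb : b < p := by omega
  have hzero : ∀ β, β.degree ≠ b → T p 1 β G ∈ low J D₀ := by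
    intro β hβ
    by_contra hcon
    exact hβ (T_mem_low p hGhom hb hGJ β hcon).1
  obtain ⟨hβ₀b, hβ₀hom⟩ := T_mem_low p hGhom hb hGJ β₀ hβ₀
  have hβ₀Box : β₀ ∈ Box σ (p ^ 1) := by
    rw [mem_Box (pow_pos hpp 1)]
    by_contra hcon
    push Not at hcon
    obtain ⟨i, hi⟩ := hcon
    apply hβ₀
    rw [T_eq_zero_of_not_lt p 1 hi]
    exact Ideal.zero_mem _
  -- the polynomial h
  set h : MvPolynomial σ k :=
    ∑ β ∈ Box σ (p ^ 1) with β.degree = b, monomial β ((lam (T p 1 β G)) ^ p) with hdef
  have hhom : h.IsHomogeneous b := by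
    refine IsHomogeneous.sum _ _ _ fun β hβ => ?_
    rw [Finset.mem_filter] at hβ
    exact isHomogeneous_monomial _ hβ.2
  have hcoeff : coeff β₀ h = (lam (T p 1 β₀ G)) ^ p := by
    rw [hdef, coeff_sum, Finset.sum_eq_single β₀]
    · rw [coeff_monomial, if_pos rfl]
    · intro β _ hne
      rw [coeff_monomial, if_neg hne]
    · intro hcon
      exact absurd (Finset.mem_filter.mpr ⟨hβ₀Box, hβ₀b⟩) hcon
  have hne : coeff β₀ h ≠ 0 := by
    rw [hcoeff]
    exact pow_ne_zero p hlam0
  have hh0 : h ≠ 0 := by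
    intro h1
    rw [h1] at hne
    simp at hne
  have hhdeg : h.totalDegree < p := lt_of_le_of_lt hhom.totalDegree_le hb
  -- the differential equation
  have hde : ∀ i, F * pderiv i h = (A : MvPolynomial σ k) * (pderiv i F * h) := by
    intro i
    have hG1 : F * pderiv i G - (A : MvPolynomial σ k) * (pderiv i F * G) = 0 := by
      rw [hGdef, mul_pderiv_pow, sub_self]
    set g : (σ →₀ ℕ) → MvPolynomial σ k := fun β =>
      F * pderiv i (monomial β 1) - (A : MvPolynomial σ k) * (pderiv i F * monomial β 1) with hg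
    have hG2 : F * pderiv i G - (A : MvPolynomial σ k) * (pderiv i F * G) =
        ∑ β ∈ Box σ (p ^ 1), (T p 1 β G) ^ (p ^ 1) * g β := by
      conv_lhs => rw [← sum_T p 1 G]
      rw [map_sum, Finset.mul_sum, Finset.mul_sum, Finset.mul_sum, ← Finset.sum_sub_distrib]
      refine Finset.sum_congr rfl fun β _ => ?_
      rw [Derivation.leibniz, smul_eq_mul, smul_eq_mul]
      have : pderiv i ((T p 1 β G) ^ (p ^ 1)) = 0 := by
        rw [pow_one]
        exact pderiv_pow_p p i _
      rw [this, mul_zero, zero_add, hg]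
      ring
    rw [← sub_eq_zero]
    ext γ
    rw [coeff_zero]
    have h1 : lam (T p 1 γ (∑ β ∈ Box σ (p ^ 1), (T p 1 β G) ^ (p ^ 1) * g β)) = 0 := by
      rw [← hG2, hG1, map_zero, map_zero]
    rw [map_sum, map_sum] at h1
    have h2 : ∀ β ∈ Box σ (p ^ 1), lam (T p 1 γ ((T p 1 β G) ^ (p ^ 1) * g β)) =
        if β.degree = b then root p 1 (coeff γ (g β)) * lam (T p 1 β G) else 0 := by
      intro β _
      rw [T_pow_mul]
      split_ifs with hβ
      · have hgdeg : (g β).totalDegree < p ^ 1 := by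
          rw [pow_one]
          have hm1 : (monomial β (1 : k)).IsHomogeneous b := isHomogeneous_monomial _ hβ
          have e1 : (F * pderiv i (monomial β (1 : k))).totalDegree ≤ d + (b - 1) :=
            (hF.mul hm1.pderiv).totalDegree_le
          have e2 : ((A : MvPolynomial σ k) * (pderiv i F * monomial β (1 : k))).totalDegree ≤
              0 + ((d - 1) + b) := by
            have : ((A : MvPolynomial σ k)).IsHomogeneous 0 := by
              rw [← map_natCast (C : k →+* MvPolynomial σ k) A]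
              exact isHomogeneous_C _ _
            exact (this.mul (hF.pderiv.mul hm1)).totalDegree_le
          have e3 : (g β).totalDegree ≤ max (d + (b - 1)) (0 + ((d - 1) + b)) :=
            (totalDegree_sub _ _).trans (max_le_max e1 e2)
          omega
        rw [T_of_totalDegree_lt p 1 hgdeg, mul_comm, ← smul_eq_C_mul, map_smul, smul_eq_mul]
      · exact hlam _ (Ideal.mul_mem_right _ _ (hzero β hβ))
    rw [Finset.sum_congr rfl h2, ← Finset.sum_filter] at h1
    have h3 := congrArg (fun x => x ^ p) h1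
    simp only [zero_pow hpp.ne'] at h3
    rw [sum_pow_char] at h3
    have h4 : coeff γ (F * pderiv i h - (A : MvPolynomial σ k) * (pderiv i F * h)) =
        ∑ β ∈ Box σ (p ^ 1) with β.degree = b,
          (root p 1 (coeff γ (g β)) * lam (T p 1 β G)) ^ p := by
      have h5 : F * pderiv i h - (A : MvPolynomial σ k) * (pderiv i F * h) =
          ∑ β ∈ Box σ (p ^ 1) with β.degree = b, C ((lam (T p 1 β G)) ^ p) * g β := by
        rw [hdef, map_sum, Finset.mul_sum, Finset.mul_sum, Finset.mul_sum,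
          ← Finset.sum_sub_distrib]
        refine Finset.sum_congr rfl fun β _ => ?_
        have h6 : monomial β ((lam (T p 1 β G)) ^ p) =
            C ((lam (T p 1 β G)) ^ p) * monomial β (1 : k) := by
          rw [C_mul_monomial, mul_one]
        rw [h6, pderiv_C_mul, hg]
        ring
      rw [h5, coeff_sum]
      refine Finset.sum_congr rfl fun β _ => ?_
      rw [coeff_C_mul, mul_pow]
      have := root_pow p 1 (coeff γ (g β))
      rw [pow_one] at this
      rw [this, mul_comm]
    rw [h4]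
    exact h3
  -- h F^(p-A) is a p-th power
  have hder : ∀ i, pderiv i (h * F ^ (p - A)) = 0 := by
    intro i
    have h1 : F * pderiv i (h * F ^ (p - A)) = 0 := by
      rw [Derivation.leibniz, smul_eq_mul, smul_eq_mul, mul_add]
      have e1 : F * (h * pderiv i (F ^ (p - A))) =
          h * (((p - A : ℕ) : MvPolynomial σ k) * (pderiv i F * F ^ (p - A))) := by
        rw [← mul_pderiv_pow]
        ring
      have e2 : F * (F ^ (p - A) * pderiv i h) =
          F ^ (p - A) * ((A : MvPolynomial σ k) * (pderiv i F * h)) := by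
        rw [← hde i]
        ring
      rw [e1, e2, Nat.cast_sub hAp, CharP.cast_eq_zero]
      ring
    rcases mul_eq_zero.mp h1 with h2 | h2
    · exact absurd h2 hF0
    · exact h2
  have hpow := eq_pow_of_pderiv_eq_zero p hder
  have heq : h * F ^ p = (T p 1 0 (h * F ^ (p - A))) ^ p * F ^ A := by
    rw [← hpow, mul_assoc, ← pow_add, Nat.sub_add_cancel hAp]
  obtain ⟨N, a, ha, hN⟩ := reduced_of_eq hpp hF0 hh0 hhdeg heq
  -- N is proportional to the coordinate
  have hNT : N * C (root p 1 (coeff β₀ h)) = C a * T p 1 β₀ G := by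
    have e1 : T p 1 β₀ (h * N ^ p) = N * C (root p 1 (coeff β₀ h)) := by
      have := T_pow_mul p 1 β₀ N h
      rw [pow_one] at this
      rw [mul_comm, this, T_of_totalDegree_lt p 1 (by rw [pow_one]; exact hhdeg)]
    have e2 : T p 1 β₀ (C a ^ p * F ^ A) = C a * T p 1 β₀ G := by
      have := T_pow_mul p 1 β₀ (C a) G
      rw [pow_one] at this
      rw [← hGdef, this]
    rw [← e1, hN, e2]
  have hroot : root p 1 (coeff β₀ h) ≠ 0 := by
    rw [Ne, map_eq_zero_iff _ (root p 1).injective]
    exact hne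
  set z := root p 1 (coeff β₀ h) with hz
  have hNeq : N = C (a * z⁻¹) * T p 1 β₀ G := by
    have : N = N * C z * C z⁻¹ := by
      rw [mul_assoc, ← C_mul, mul_inv_cancel₀ hroot, C_1, mul_one]
    rw [this, hNT, C_mul]
    ring
  have hTeq : T p 1 β₀ G = C (a⁻¹ * z) * N := by
    have : T p 1 β₀ G = C a⁻¹ * (C a * T p 1 β₀ G) := by
      rw [← mul_assoc, ← C_mul, inv_mul_cancel₀ ha, C_1, one_mul]
    rw [this, ← hNT, C_mul]
    ring
  have hNnot : N ∉ low J D₀ := by
    intro hcon
    apply hβ₀
    rw [hTeq]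
    exact Ideal.mul_mem_left _ _ hcon
  have hNhom : N.IsHomogeneous D₀ := by
    rw [hNeq]
    exact hβ₀hom.C_mul _
  have hNpid : ∀ i, N ∈ pid (c i) (l i) ^ (m + n - 1) := by
    intro i
    refine mem_pid_of_mul_pow p 1 (c i) (l i) (m + n - 1) hh0 (by rw [pow_one]; exact hhdeg) ?_
    rw [pow_one, hN]
    have := hGpid i
    rw [pow_one] at this
    exact Ideal.mul_mem_left _ _ this
  apply hNnot
  rcases Nat.eq_zero_or_pos D₀ with hD0 | hD0
  · -- constant
    rw [hD0] at hNhom
    have h1 : N = C (coeff 0 N) := by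
      rw [← totalDegree_eq_zero_iff_eq_C]
      exact Nat.le_zero.mp hNhom.totalDegree_le
    obtain ⟨i⟩ := ‹Nonempty s›
    have h2 := hNpid i
    rw [mem_pid_pow_iff, h1] at h2
    have h3 : coeff 0 N = 0 := by
      by_contra h4
      have h5 := h2 0 (by
        unfold th
        rw [aeval_C, algebraMap_eq, coeff_C, if_pos rfl]
        exact h4)
      simp [wt] at h5
      omega
    rw [h1, h3, C_0]
    exact Ideal.zero_mem _
  · have hEuler := hNhom.sum_X_mul_pderiv
    have h1 : ∀ j, pderiv j N ∈ low J D₀ := by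
      intro j
      refine mem_low ?_ (j := D₀ - 1) (by omega) hNhom.pderiv
      rw [hJdef, mem_symb]
      intro i
      refine derivation_mem_pow (pderiv j) (pid (c i) (l i)) m N ?_
      exact Ideal.pow_le_pow_right (by omega) (hNpid i)
    have h2 : (D₀ : k) ≠ 0 := by
      rw [Ne, CharP.cast_eq_zero_iff k p]
      intro hdvd
      have := Nat.le_of_dvd hD0 hdvd
      omega
    have h3 : N = C ((D₀ : k)⁻¹) * ∑ j, X j * pderiv j N := by
      rw [hEuler, nsmul_eq_mul, ← mul_assoc, ← map_natCast (C : k →+* MvPolynomial σ k), ← C_mul,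
        inv_mul_cancel₀ h2, C_1, one_mul]
    rw [h3]
    exact Ideal.mul_mem_left _ _ (Ideal.sum_mem _ fun j _ => Ideal.mul_mem_left _ _ (h1 j))

end Pool.Agent.Lib22a066
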