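import Pool.Agent.Lib_MP_22a066_ag.CharPBasic

/-!
# Derivative lemmas
-/

set_option autoImplicit false

namespace Pool.Agent.Lib22a066

open MvPolynomial

set_option linter.unusedSectionVars false

variable {σ : Type*} [Fintype σ] [DecidableEq σ] {k : Type*} [Field k]

/-- A derivation maps `I^(M+1)` into `I^M`. -/
lemma derivation_mem_pow {A R : Type*} [CommRing A] [CommRing R] [Algebra A R]
    (D : Derivation A R R) (I : Ideal R) (M : ℕ) :
    ∀ f ∈ I ^ (M + 1), D f ∈ I ^ M := by
  induction M with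
  | zero =>
    intro f _
    simp
  | succ M ih =>
    intro f hf
    rw [pow_succ] at hf
    refine Submodule.mul_induction_on hf ?_ ?_
    · intro a ha b hb
      rw [Derivation.leibniz, smul_eq_mul, smul_eq_mul]
      refine Ideal.add_mem _ (Ideal.mul_mem_right _ _ ha) ?_
      rw [mul_comm, pow_succ]
      exact Ideal.mul_mem_mul (ih a ha) hb
    · intro a b ha hb
      rw [map_add]
      exact Ideal.add_mem _ ha hb

lemma coeff_X_mul_pderiv (i : σ) (α : σ →₀ ℕ) (f : MvPolynomial σ k) :
    coeff α (X i * pderiv i f) = (α i : k) * coeff α f := by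
  induction f using MvPolynomial.induction_on' with
  | monomial γ c =>
    rw [X_mul_pderiv_monomial, coeff_smul, coeff_monomial]
    split_ifs with h
    · rw [h]
      simp
    · simp
  | add f g hf hg =>
    rw [map_add, mul_add, coeff_add, coeff_add, hf, hg, mul_add]

section

variable (p : ℕ) [hp : Fact p.Prime] [CharP k p] [PerfectRing k p]

/-- A polynomial with vanishing partial derivatives is a `p`-th power. -/
lemma eq_pow_of_pderiv_eq_zero {H : MvPolynomial σ k} (h : ∀ i, pderiv i H = 0) :
    H = (T p 1 0 H) ^ p := by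
  have hq : 0 < p ^ 1 := pow_pos hp.out.pos 1
  conv_lhs => rw [← sum_T p 1 H]
  rw [Finset.sum_eq_single 0]
  · rw [pow_one]
    simp
  · intro β hβ hne
    rw [mem_Box hq] at hβ
    have : T p 1 β H = 0 := by
      ext γ
      rw [coeff_T p 1 hβ, coeff_zero]
      have h2 : coeff (p ^ 1 • γ + β) H = 0 := by
        obtain ⟨i, hi⟩ : ∃ i, β i ≠ 0 := by
          by_contra hcon
          push Not at hcon
          exact hne (Finsupp.ext hcon)
        have h3 := coeff_X_mul_pderiv i (p ^ 1 • γ + β) H
        rw [h i, mul_zero, coeff_zero] at h3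
        rcases mul_eq_zero.mp h3.symm with h4 | h4
        · exfalso
          rw [CharP.cast_eq_zero_iff k p] at h4
          simp only [Finsupp.add_apply, Finsupp.smul_apply, smul_eq_mul, pow_one] at h4
          have h5 : p ∣ β i := (Nat.dvd_add_right (Dvd.intro _ rfl)).mp h4
          have h6 := hβ i
          rw [pow_one] at h6
          exact hi (Nat.eq_zero_of_dvd_of_lt h5 h6)
        · exact h4
      rw [h2, map_zero]
    rw [this, zero_pow hq.ne', mul_zero]
  · intro h0
    exfalso
    apply h0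
    rw [mem_Box hq]
    intro i
    simpa using hq

lemma pderiv_pow_p (i : σ) (f : MvPolynomial σ k) : pderiv i (f ^ p) = 0 := by
  rw [Derivation.leibniz_pow]
  have : (p : MvPolynomial σ k) = 0 := CharP.cast_eq_zero _ p
  rw [nsmul_eq_mul, this, zero_mul]

end

/-- `F * ∂(F^M) = M * F^M * ∂F`. -/
lemma mul_pderiv_pow (i : σ) (F : MvPolynomial σ k) (M : ℕ) :
    F * pderiv i (F ^ M) = (M : MvPolynomial σ k) * (pderiv i F * F ^ M) := by
  rw [Derivation.leibniz_pow]
  rcases M with _ | M
  · simp
  · rw [nsmul_eq_mul, smul_eq_mul, Nat.add_sub_cancel, pow_succ]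
    ring

lemma totalDegree_pow_eq {f : MvPolynomial σ k} (hf : f ≠ 0) (n : ℕ) :
    (f ^ n).totalDegree = n * f.totalDegree := by
  induction n with
  | zero => simp
  | succ n ih =>
    rw [pow_succ, totalDegree_mul_of_isDomain (pow_ne_zero n hf) hf, ih]
    ring

/-- Reduced factors: if `h * F^p = u^p * F^A` with `h ≠ 0` of small degree, then up to a constant
`h * N^p = F^A` for a divisor `N` of `F`. -/
lemma reduced_of_eq {p : ℕ} (hp : 0 < p) {F h u : MvPolynomial σ k} {A : ℕ} (hF : F ≠ 0)
    (hh : h ≠ 0) (hdeg : h.totalDegree < p) (heq : h * F ^ p = u ^ p * F ^ A) :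
    ∃ (N : MvPolynomial σ k) (c : k), c ≠ 0 ∧ h * N ^ p = C c ^ p * F ^ A := by
  obtain ⟨F', u', c', hrel, hF', hu'⟩ := UniqueFactorizationMonoid.exists_reduced_factors F hF u
  have hc' : c' ≠ 0 := by
    rintro rfl
    rw [zero_mul] at hF'
    exact hF hF'.symm
  have h1 : h * F' ^ p = u' ^ p * F ^ A := by
    have : c' ^ p * (h * F' ^ p) = c' ^ p * (u' ^ p * F ^ A) := by
      calc c' ^ p * (h * F' ^ p) = h * (c' * F') ^ p := by ring
        _ = (c' * u') ^ p * F ^ A := by rw [hF', hu', heq]
        _ = _ := by ring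
    exact mul_left_cancel₀ (pow_ne_zero p hc') this
  have h2 : u' ^ p ∣ h := by
    have hr : IsRelPrime (u' ^ p) (F' ^ p) := (hrel.symm.pow_left).pow_right
    exact hr.dvd_of_dvd_mul_right (h1 ▸ Dvd.intro _ rfl)
  obtain ⟨w, hw⟩ := h2
  have hu'0 : u' ≠ 0 := by
    rintro rfl
    rw [zero_pow hp.ne', zero_mul] at hw
    exact hh hw
  have hw0 : w ≠ 0 := by
    rintro rfl
    rw [mul_zero] at hw
    exact hh hw
  have h3 : h.totalDegree = p * u'.totalDegree + w.totalDegree := by
    rw [hw, totalDegree_mul_of_isDomain (pow_ne_zero p hu'0) hw0, totalDegree_pow_eq hu'0]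
  have h4 : u'.totalDegree = 0 := by
    by_contra hne
    have : p ≤ p * u'.totalDegree := Nat.le_mul_of_pos_right _ (Nat.pos_of_ne_zero hne)
    omega
  rw [totalDegree_eq_zero_iff_eq_C] at h4
  refine ⟨F', coeff 0 u', ?_, ?_⟩
  · intro h5
    rw [h5, C_0] at h4
    exact hu'0 h4
  · rw [← h4]
    exact h1

end Pool.Agent.Lib22a066
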