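import Mathlib

/-!
# Frobenius coordinates on a polynomial ring over a perfect field

`T p e β G` is the `β`-th coordinate of `G` with respect to the basis `x^β` (`0 ≤ β_i < p^e`) of the
polynomial ring over its subring of `p^e`-th powers: `G = ∑ x^β (T_β G)^(p^e)`.
-/

set_option autoImplicit false

namespace Pool.Agent.Lib22a066

open MvPolynomial

variable {σ : Type*}

/-- Componentwise quotient of an exponent vector. -/
noncomputable def quo (q : ℕ) (α : σ →₀ ℕ) : σ →₀ ℕ := α.mapRange (· / q) (Nat.zero_div q)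

/-- Componentwise remainder of an exponent vector. -/
noncomputable def rem (q : ℕ) (α : σ →₀ ℕ) : σ →₀ ℕ := α.mapRange (· % q) (Nat.zero_mod q)

@[simp] lemma quo_apply (q : ℕ) (α : σ →₀ ℕ) (i : σ) : quo q α i = α i / q := rfl
@[simp] lemma rem_apply (q : ℕ) (α : σ →₀ ℕ) (i : σ) : rem q α i = α i % q := rfl

lemma quo_add_rem (q : ℕ) (α : σ →₀ ℕ) : q • quo q α + rem q α = α := by
  ext i
  simp [Nat.div_add_mod]

lemma rem_smul_add (q : ℕ) (γ α : σ →₀ ℕ) : rem q (q • γ + α) = rem q α := by
  ext i
  simp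

lemma quo_smul_add (q : ℕ) (hq : 0 < q) (γ α : σ →₀ ℕ) : quo q (q • γ + α) = γ + quo q α := by
  ext i
  simp only [quo_apply, Finsupp.add_apply, Finsupp.smul_apply, smul_eq_mul]
  rw [Nat.mul_add_div hq]

lemma eq_of_quo_rem {q : ℕ} {α γ β : σ →₀ ℕ} (h1 : quo q α = γ) (h2 : rem q α = β) :
    α = q • γ + β := by
  rw [← h1, ← h2, quo_add_rem]

lemma rem_of_lt {q : ℕ} {β : σ →₀ ℕ} (h : ∀ i, β i < q) : rem q β = β := by
  ext i
  simp [Nat.mod_eq_of_lt (h i)]

lemma quo_of_lt {q : ℕ} {β : σ →₀ ℕ} (h : ∀ i, β i < q) : quo q β = 0 := by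
  ext i
  simp [Nat.div_eq_of_lt (h i)]

lemma le_degree (β : σ →₀ ℕ) (i : σ) : β i ≤ β.degree := Finsupp.le_degree i β

section

variable {k : Type*} [Field k]

/-- The `k`-linear extraction of exponents congruent to `β` mod `q`. -/
noncomputable def U (q : ℕ) (β : σ →₀ ℕ) : MvPolynomial σ k →ₗ[k] MvPolynomial σ k :=
  by
    classical
    exact (basisMonomials σ k).constr k
      (fun α => if rem q α = β then monomial (quo q α) 1 else 0)

lemma U_monomial [DecidableEq σ] (q : ℕ) (β α : σ →₀ ℕ) (a : k) :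
    U q β (monomial α a) = if rem q α = β then monomial (quo q α) a else 0 := by
  classical
  have h1 : (monomial α a : MvPolynomial σ k) = a • basisMonomials σ k α := by
    simp [coe_basisMonomials, smul_monomial]
  rw [h1, map_smul]
  unfold U
  rw [Module.Basis.constr_basis]
  by_cases h : rem q α = β
  · rw [if_pos h, if_pos h, smul_monomial, smul_eq_mul, mul_one]
  · rw [if_neg h, if_neg h, smul_zero]

variable (p : ℕ) [hp : Fact p.Prime] [CharP k p] [PerfectRing k p] (e : ℕ)

/-- The `p^e`-th root on a perfect field. -/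
noncomputable def root : k ≃+* k := (iterateFrobeniusEquiv k p e).symm

lemma root_pow (a : k) : (root p e a) ^ (p ^ e) = a := by
  unfold root
  rw [← iterateFrobeniusEquiv_def k p e]
  simp

lemma pow_root (a : k) : root p e (a ^ (p ^ e)) = a := by
  unfold root
  rw [← iterateFrobeniusEquiv_def k p e]
  exact RingEquiv.symm_apply_apply _ _

/-- The Frobenius coordinate. -/
noncomputable def T (β : σ →₀ ℕ) : MvPolynomial σ k →+ MvPolynomial σ k :=
  ((MvPolynomial.map (σ := σ) (root (k := k) p e).toRingHom).toAddMonoidHom).comp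
    (U (p ^ e) β).toAddMonoidHom

lemma T_monomial [DecidableEq σ] (β α : σ →₀ ℕ) (a : k) :
    T p e β (monomial α a) =
      if rem (p ^ e) α = β then monomial (quo (p ^ e) α) (root p e a) else 0 := by
  unfold T
  simp only [AddMonoidHom.comp_apply, LinearMap.toAddMonoidHom_coe, U_monomial]
  split_ifs with h
  · simp [map_monomial]
  · simp

lemma T_pow_mul [DecidableEq σ] (β : σ →₀ ℕ) (f G : MvPolynomial σ k) :
    T p e β (f ^ (p ^ e) * G) = f * T p e β G := by
  have hq : 0 < p ^ e := pow_pos hp.out.pos e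
  induction f using MvPolynomial.induction_on' with
  | monomial γ c =>
    induction G using MvPolynomial.induction_on' with
    | monomial α a =>
      rw [monomial_pow, monomial_mul, T_monomial, T_monomial, rem_smul_add, quo_smul_add _ hq]
      split_ifs with h
      · rw [monomial_mul, map_mul, pow_root]
      · simp
    | add G1 G2 h1 h2 =>
      rw [mul_add, map_add, h1, h2, map_add, mul_add]
  | add f g hf hg =>
    rw [add_pow_char_pow, add_mul, map_add, hf, hg, add_mul]

/-- Exponents bounded by `q - 1`. -/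
noncomputable def Box (σ : Type*) [Fintype σ] [DecidableEq σ] (q : ℕ) : Finset (σ →₀ ℕ) :=
  Finset.Iic (Finsupp.equivFunOnFinite.symm (fun _ => q - 1))

lemma mem_Box [Fintype σ] [DecidableEq σ] {q : ℕ} (hq : 0 < q) {β : σ →₀ ℕ} :
    β ∈ Box σ q ↔ ∀ i, β i < q := by
  unfold Box
  rw [Finset.mem_Iic, Finsupp.le_def]
  simp only [Finsupp.equivFunOnFinite_symm_apply_apply]
  refine forall_congr' fun i => ?_
  omega

lemma sum_T [Fintype σ] [DecidableEq σ] (G : MvPolynomial σ k) :
    ∑ β ∈ Box σ (p ^ e), monomial β 1 * (T p e β G) ^ (p ^ e) = G := by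
  have hq : 0 < p ^ e := pow_pos hp.out.pos e
  induction G using MvPolynomial.induction_on' with
  | monomial α a =>
    rw [Finset.sum_eq_single (rem (p ^ e) α)]
    · rw [T_monomial, if_pos rfl, monomial_pow, monomial_mul, one_mul, root_pow, add_comm,
        quo_add_rem]
    · intro β _ hβ
      rw [T_monomial, if_neg (fun h => hβ h.symm), zero_pow hq.ne', mul_zero]
    · intro h
      exfalso
      apply h
      rw [mem_Box hq]
      intro i
      exact Nat.mod_lt _ hq
  | add G1 G2 h1 h2 =>
    simp only [map_add, add_pow_char_pow, mul_add, Finset.sum_add_distrib]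
    rw [h1, h2]

lemma coeff_T [DecidableEq σ] {β : σ →₀ ℕ} (hβ : ∀ i, β i < p ^ e) (γ : σ →₀ ℕ)
    (G : MvPolynomial σ k) :
    coeff γ (T p e β G) = root p e (coeff (p ^ e • γ + β) G) := by
  have hq : 0 < p ^ e := pow_pos hp.out.pos e
  induction G using MvPolynomial.induction_on' with
  | monomial α a =>
    rw [T_monomial, coeff_monomial]
    by_cases h : α = p ^ e • γ + β
    · rw [if_pos h, h, rem_smul_add, rem_of_lt hβ, if_pos rfl, quo_smul_add _ hq, quo_of_lt hβ,
        add_zero, coeff_monomial, if_pos rfl]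
    · rw [if_neg h, map_zero]
      split_ifs with h1
      · rw [coeff_monomial, if_neg]
        intro h2
        exact h (eq_of_quo_rem h2 h1)
      · simp
  | add G1 G2 h1 h2 =>
    rw [map_add, coeff_add, h1, h2, coeff_add, map_add]

lemma T_eq_zero_of_not_lt [DecidableEq σ] {β : σ →₀ ℕ} {i : σ} (hβ : p ^ e ≤ β i)
    (G : MvPolynomial σ k) : T p e β G = 0 := by
  have hq : 0 < p ^ e := pow_pos hp.out.pos e
  induction G using MvPolynomial.induction_on' with
  | monomial α a =>
    rw [T_monomial, if_neg]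
    intro h
    have := congrArg (fun f => f i) h
    simp only [rem_apply] at this
    have h2 := Nat.mod_lt (α i) hq
    omega
  | add G1 G2 h1 h2 =>
    rw [map_add, h1, h2, add_zero]

/-- If all coordinates of `G` lie in an ideal, so do those of `s * G`. -/
lemma T_mul_mem [Fintype σ] [DecidableEq σ] (𝔞 : Ideal (MvPolynomial σ k)) {G : MvPolynomial σ k}
    (hG : ∀ β, T p e β G ∈ 𝔞) (s : MvPolynomial σ k) (β : σ →₀ ℕ) : T p e β (s * G) ∈ 𝔞 := by
  conv => rw [← sum_T p e G, Finset.mul_sum, map_sum]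
  refine Ideal.sum_mem _ fun γ _ => ?_
  have : s * (monomial γ 1 * (T p e γ G) ^ (p ^ e)) =
    (T p e γ G) ^ (p ^ e) * (s * monomial γ 1) := by ring
  rw [this, T_pow_mul]
  exact Ideal.mul_mem_right _ _ (hG γ)

lemma mem_map_frob_iff [Fintype σ] [DecidableEq σ] (𝔞 : Ideal (MvPolynomial σ k))
    (G : MvPolynomial σ k) :
    G ∈ Ideal.map (iterateFrobenius (MvPolynomial σ k) p e) 𝔞 ↔ ∀ β, T p e β G ∈ 𝔞 := by
  constructor
  · intro h
    unfold Ideal.map at h
    refine Submodule.span_induction (p := fun G _ => ∀ β, T p e β G ∈ 𝔞) ?_ ?_ ?_ ?_ h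
    · rintro _ ⟨f, hf, rfl⟩ β
      rw [iterateFrobenius_def, ← mul_one (f ^ p ^ e), T_pow_mul]
      exact Ideal.mul_mem_right _ _ hf
    · intro β
      simp
    · intro x y _ _ hx hy β
      rw [map_add]
      exact Ideal.add_mem _ (hx β) (hy β)
    · intro a x _ hx β
      rw [smul_eq_mul]
      exact T_mul_mem p e 𝔞 hx a β
  · intro h
    rw [← sum_T p e G]
    refine Ideal.sum_mem _ fun γ _ => ?_
    refine Ideal.mul_mem_left _ _ ?_
    rw [← iterateFrobenius_def]
    exact Ideal.mem_map_of_mem _ (h γ)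

/-- Coordinates of low degree polynomials are constants. -/
lemma T_of_totalDegree_lt [DecidableEq σ] {g : MvPolynomial σ k} (hg : g.totalDegree < p ^ e)
    (γ : σ →₀ ℕ) : T p e γ g = C (root p e (coeff γ g)) := by
  have hq : 0 < p ^ e := pow_pos hp.out.pos e
  by_cases hγ : ∀ i, γ i < p ^ e
  · ext ω
    rw [coeff_T p e hγ, coeff_C]
    by_cases hω : ω = 0
    · simp [hω]
    · rw [if_neg (Ne.symm hω)]
      have : coeff (p ^ e • ω + γ) g = 0 := by
        by_contra hne
        have h1 : (p ^ e • ω + γ).degree ≤ g.totalDegree := by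
          exact le_totalDegree (p := g) (s := p ^ e • ω + γ) (mem_support_iff.mpr hne)
        obtain ⟨i, hi⟩ : ∃ i, ω i ≠ 0 := by
          by_contra hcon
          push Not at hcon
          exact hω (Finsupp.ext hcon)
        have h2 := le_degree (p ^ e • ω + γ) i
        have h3 : (p ^ e • ω + γ) i = p ^ e * ω i + γ i := by simp
        have h4 : p ^ e ≤ p ^ e * ω i := Nat.le_mul_of_pos_right _ (Nat.pos_of_ne_zero hi)
        omega
      rw [this, map_zero]
  · push Not at hγ
    obtain ⟨i, hi⟩ := hγ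
    rw [T_eq_zero_of_not_lt p e hi]
    have : coeff γ g = 0 := by
      by_contra hne
      have h1 : γ.degree ≤ g.totalDegree := by
        exact le_totalDegree (p := g) (s := γ) (mem_support_iff.mpr hne)
      have h2 := le_degree γ i
      omega
    rw [this, map_zero, C_0]

/-- Homogeneity of coordinates. -/
lemma T_isHomogeneous [DecidableEq σ] {G : MvPolynomial σ k} {D : ℕ} (hG : G.IsHomogeneous D)
    {β γ : σ →₀ ℕ} (h : coeff γ (T p e β G) ≠ 0) : p ^ e * γ.degree + β.degree = D := by
  have hβ : ∀ i, β i < p ^ e := by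
    by_contra hcon
    push Not at hcon
    obtain ⟨i, hi⟩ := hcon
    rw [T_eq_zero_of_not_lt p e hi] at h
    simp at h
  rw [coeff_T p e hβ] at h
  have h2 : coeff (p ^ e • γ + β) G ≠ 0 := by
    intro h3
    rw [h3, map_zero] at h
    exact h rfl
  have h3 := hG
  by_contra hne
  apply h2
  apply hG.coeff_eq_zero
  rw [map_add, map_nsmul]
  simpa using hne

end

end Pool.Agent.Lib22a066
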