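import Pool.Agent.Lib_MP_22a066_ag.CharPMain

/-!
# Graded lemmas: from powers of the low degree ideal to `𝔪^t J^t`, homogeneity of the ideals
-/

set_option autoImplicit false

namespace Pool.Agent.Lib22a066

open MvPolynomial

set_option linter.unusedSectionVars false

section

variable {σ : Type*} [DecidableEq σ] {K : Type*} [CommRing K]

lemma homComp_mul {f : MvPolynomial σ K} {j e : ℕ} (hf : f.IsHomogeneous j) (hje : j ≤ e)
    (a : MvPolynomial σ K) :
    homogeneousComponent e (a * f) = homogeneousComponent (e - j) a * f := by
  induction a using MvPolynomial.induction_on' with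
  | monomial α c =>
    have h1 : (monomial α c : MvPolynomial σ K).IsHomogeneous α.degree :=
      isHomogeneous_monomial _ rfl
    rw [homogeneousComponent_of_mem (h1.mul hf), homogeneousComponent_of_mem h1]
    by_cases h : e = α.degree + j
    · rw [if_pos h, if_pos (by omega)]
    · rw [if_neg h, if_neg (by omega), zero_mul]
  | add a b ha hb =>
    rw [add_mul, map_add, ha, hb, map_add, add_mul]

lemma homComp_mul_of_lt {f : MvPolynomial σ K} {j e : ℕ} (hf : f.IsHomogeneous j) (hje : e < j)
    (a : MvPolynomial σ K) :
    homogeneousComponent e (a * f) = 0 := by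
  induction a using MvPolynomial.induction_on' with
  | monomial α c =>
    have h1 : (monomial α c : MvPolynomial σ K).IsHomogeneous α.degree :=
      isHomogeneous_monomial _ rfl
    rw [homogeneousComponent_of_mem (h1.mul hf), if_neg (by omega)]
  | add a b ha hb =>
    rw [add_mul, map_add, ha, hb, add_zero]

lemma homComp_mem_pow (G : MvPolynomial σ K) (e r : ℕ) (h : r ≤ e) :
    homogeneousComponent e G ∈ idealOfVars σ K ^ r := by
  rw [mem_pow_idealOfVars_iff']
  intro x hx
  rw [coeff_homogeneousComponent, if_neg (by omega)]

lemma homComp_mem_of_mem_low_pow {J : Ideal (MvPolynomial σ K)} {D : ℕ} (t : ℕ) :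
    ∀ (G : MvPolynomial σ K), G ∈ low J D ^ t → ∀ e r, t * (D - 1) + r ≤ e →
      homogeneousComponent e G ∈ idealOfVars σ K ^ r * J ^ t := by
  induction t with
  | zero =>
    intro G _ e r he
    rw [pow_zero, Ideal.one_eq_top, Ideal.mul_top]
    exact homComp_mem_pow G e r (by omega)
  | succ t ih =>
    intro G hG e r he
    rw [pow_succ] at hG
    refine Submodule.mul_induction_on hG ?_ ?_
    · intro a ha b hb
      unfold low at hb
      revert a
      refine Submodule.span_induction (p := fun b _ => ∀ a ∈ low J D ^ t,
        homogeneousComponent e (a * b) ∈ idealOfVars σ K ^ r * J ^ (t + 1)) ?_ ?_ ?_ ?_ hb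
      · rintro f ⟨hfJ, j, hj, hfh⟩ a ha
        have hje : j ≤ e := by
          have : t * (D - 1) + (D - 1) = (t + 1) * (D - 1) := by ring
          omega
        rw [homComp_mul hfh hje, pow_succ, ← mul_assoc]
        refine Ideal.mul_mem_mul (ih a ha (e - j) r ?_) hfJ
        have : t * (D - 1) + (D - 1) = (t + 1) * (D - 1) := by ring
        omega
      · intro a _
        rw [mul_zero, map_zero]
        exact Ideal.zero_mem _
      · intro x y _ _ hx hy a ha
        rw [mul_add, map_add]
        exact Ideal.add_mem _ (hx a ha) (hy a ha)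
      · intro c x _ hx a ha
        rw [smul_eq_mul, ← mul_assoc]
        exact hx (a * c) (Ideal.mul_mem_right _ _ ha)
    · intro x y hx hy
      rw [map_add]
      exact Ideal.add_mem _ hx hy

/-- A form of degree `d ≥ t * D` in the `t`-th power of the ideal generated by forms of degree
`< D` of `J` lies in `𝔪^t J^t`. -/
lemma mem_of_mem_low_pow {J : Ideal (MvPolynomial σ K)} {D t d : ℕ} (ht : 1 ≤ t)
    (hd : t * D ≤ d) {F : MvPolynomial σ K} (hF : F.IsHomogeneous d) (h : F ∈ low J D ^ t) :
    F ∈ idealOfVars σ K ^ t * J ^ t := by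
  rcases Nat.eq_zero_or_pos D with hD | hD
  · have h1 : low J D = ⊥ := by
      unfold low
      rw [Ideal.span_eq_bot]
      rintro f ⟨_, j, hj, _⟩
      omega
    rw [h1, ← Ideal.zero_eq_bot, zero_pow (by omega)] at h
    have h2 : F = 0 := by simpa using h
    rw [h2]
    exact Ideal.zero_mem _
  · have h1 := homComp_mem_of_mem_low_pow t F h d t (by
      obtain ⟨D', rfl⟩ : ∃ D', D = D' + 1 := ⟨D - 1, by omega⟩
      rw [mul_add, mul_one] at hd
      simpa using hd)
    rwa [homogeneousComponent_eq_self hF] at h1

/-- Coordinate changes commute with homogeneous components. -/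
lemma th_homComp (c : σ → K) (l : σ) (e : ℕ) (f : MvPolynomial σ K) :
    th c l (homogeneousComponent e f) = homogeneousComponent e (th c l f) := by
  induction f using MvPolynomial.induction_on' with
  | monomial α a =>
    have h1 : (monomial α a : MvPolynomial σ K).IsHomogeneous α.degree :=
      isHomogeneous_monomial _ rfl
    rw [homogeneousComponent_of_mem h1, homogeneousComponent_of_mem (th_isHomogeneous c l h1)]
    split_ifs <;> simp
  | add a b ha hb =>
    rw [map_add, map_add, ha, hb, map_add, map_add]

lemma homComp_mem_pid_pow {c : σ → K} {l : σ} {M : ℕ} {f : MvPolynomial σ K}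
    (hf : f ∈ pid c l ^ M) (e : ℕ) : homogeneousComponent e f ∈ pid c l ^ M := by
  rw [mem_pid_pow_iff] at hf ⊢
  intro α hα
  rw [th_homComp, coeff_homogeneousComponent] at hα
  by_cases h : α.degree = e
  · rw [if_pos h] at hα
    exact hf α hα
  · rw [if_neg h] at hα
    exact absurd rfl hα

variable {s : Type*}

lemma homComp_mem_symb {c : s → σ → K} {l : s → σ} {M : ℕ} {f : MvPolynomial σ K}
    (hf : f ∈ symb c l M) (e : ℕ) : homogeneousComponent e f ∈ symb c l M := by
  rw [mem_symb] at hf ⊢
  exact fun i => homComp_mem_pid_pow (hf i) e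

/-- Elements of small total degree of the symbolic power are in the ideal generated by forms. -/
lemma mem_low_of_totalDegree {c : s → σ → K} {l : s → σ} {M D : ℕ} {f : MvPolynomial σ K}
    (hf : f ∈ symb c l M) (hD : f.totalDegree < D) : f ∈ low (symb c l M) D := by
  rw [← sum_homogeneousComponent f]
  refine Ideal.sum_mem _ fun i hi => ?_
  rw [Finset.mem_range] at hi
  exact mem_low (homComp_mem_symb hf i) (by omega) (homogeneousComponent_isHomogeneous i f)

/-- The powers of the ideal generated by low degree forms are homogeneous. -/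
lemma homComp_mem_low_pow {J : Ideal (MvPolynomial σ K)} {D : ℕ} (t : ℕ) :
    ∀ (G : MvPolynomial σ K), G ∈ low J D ^ t → ∀ e,
      homogeneousComponent e G ∈ low J D ^ t := by
  induction t with
  | zero =>
    intro G _ e
    rw [pow_zero, Ideal.one_eq_top]
    exact Submodule.mem_top
  | succ t ih =>
    intro G hG e
    rw [pow_succ] at hG
    refine Submodule.mul_induction_on hG ?_ ?_
    · intro a ha b hb
      unfold low at hb
      revert a
      refine Submodule.span_induction (p := fun b _ => ∀ a ∈ low J D ^ t,
        homogeneousComponent e (a * b) ∈ low J D ^ (t + 1)) ?_ ?_ ?_ ?_ hb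
      · rintro f ⟨hfJ, j, hj, hfh⟩ a ha
        by_cases hje : j ≤ e
        · rw [homComp_mul hfh hje, pow_succ]
          exact Ideal.mul_mem_mul (ih a ha (e - j)) (mem_low hfJ hj hfh)
        · rw [homComp_mul_of_lt hfh (by omega)]
          exact Ideal.zero_mem _
      · intro a _
        rw [mul_zero, map_zero]
        exact Ideal.zero_mem _
      · intro x y _ _ hx hy a ha
        rw [mul_add, map_add]
        exact Ideal.add_mem _ (hx a ha) (hy a ha)
      · intro c x _ hx a ha
        rw [smul_eq_mul, ← mul_assoc]
        exact hx (a * c) (Ideal.mul_mem_right _ _ ha)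
    · intro x y hx hy
      rw [map_add]
      exact Ideal.add_mem _ hx hy

end

end Pool.Agent.Lib22a066
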