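import Pool.Agent.Lib_MP_22a066_ag.Graded

/-!
# Transfer of failures along ring homomorphisms from subrings
-/

set_option autoImplicit false

namespace Pool.Agent.Lib22a066

open MvPolynomial

set_option linter.unusedSectionVars false

section

variable {σ : Type*} [Fintype σ] [DecidableEq σ] {s : Type*} [Fintype s]

/-- Exponents of degree `< D`. -/
noncomputable def Mon (σ : Type*) [Fintype σ] (D : ℕ) : Finset (σ →₀ ℕ) :=
  (Finsupp.finite_of_degree_lt (σ := σ) D).toFinset

lemma mem_Mon {D : ℕ} {α : σ →₀ ℕ} : α ∈ Mon σ D ↔ α.degree < D := by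
  unfold Mon
  simp

/-- Exponents of degree `d`. -/
noncomputable def MonEq (σ : Type*) [Fintype σ] (d : ℕ) : Finset (σ →₀ ℕ) :=
  (Finsupp.finite_of_degree_eq (σ := σ) d).toFinset

lemma mem_MonEq {d : ℕ} {α : σ →₀ ℕ} : α ∈ MonEq σ d ↔ α.degree = d := by
  unfold MonEq
  simp

variable {K : Type*} [CommRing K]

/-- The conditions defining the symbolic power. -/
noncomputable def tau (c : s → σ → K) (l : s → σ) (m : ℕ) (i : s) (α : σ →₀ ℕ) :
    MvPolynomial σ K →ₗ[K] K :=
  if wt (l i) α < m then (lcoeff K α).comp (th (c i) (l i)).toLinearMap else 0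

lemma tau_apply (c : s → σ → K) (l : s → σ) (m : ℕ) (i : s) (α : σ →₀ ℕ)
    (f : MvPolynomial σ K) :
    tau c l m i α f = if wt (l i) α < m then coeff α (th (c i) (l i) f) else 0 := by
  unfold tau
  split_ifs <;> simp

lemma tau_eq_zero {c : s → σ → K} {l : s → σ} {m : ℕ} {f : MvPolynomial σ K}
    (hf : f ∈ symb c l m) (i : s) (α : σ →₀ ℕ) : tau c l m i α f = 0 := by
  rw [tau_apply]
  split_ifs with h
  · rw [mem_symb] at hf
    have h1 := hf i
    rw [mem_pid_pow_iff] at h1
    by_contra hne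
    have := h1 α hne
    omega
  · rfl

lemma mem_symb_of_tau {c : s → σ → K} {l : s → σ} {m D : ℕ} {f : MvPolynomial σ K}
    (hD : ∀ α, coeff α f ≠ 0 → α.degree < D)
    (hf : ∀ i, ∀ α ∈ Mon σ D, tau c l m i α f = 0) : f ∈ symb c l m := by
  rw [mem_symb]
  intro i
  rw [mem_pid_pow_iff]
  intro α hα
  by_contra hlt
  push Not at hlt
  by_cases hαM : α.degree < D
  · have := hf i α (mem_Mon.mpr hαM)
    rw [tau_apply, if_pos hlt] at this
    exact hα this
  · apply hα
    have h1 : f = ∑ β ∈ f.support, monomial β (coeff β f) := f.as_sum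
    rw [h1, map_sum, coeff_sum]
    refine Finset.sum_eq_zero fun β hβ => ?_
    have h2 := hD β (mem_support_iff.mp hβ)
    have h3 : (monomial β (coeff β f) : MvPolynomial σ K).IsHomogeneous β.degree :=
      isHomogeneous_monomial _ rfl
    exact (th_isHomogeneous (c i) (l i) h3).coeff_eq_zero (by omega)

/-- The generators of the low degree part of the symbolic power. -/
noncomputable def bb (c : s → σ → K) (l : s → σ) (m D : ℕ)
    (Sp : s → (σ →₀ ℕ) → MvPolynomial σ K) (ω : σ →₀ ℕ) : MvPolynomial σ K :=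
  monomial ω 1 - ∑ i, ∑ α ∈ Mon σ D, C (tau c l m i α (monomial ω 1)) * Sp i α

/-- The ideal generated by them. -/
noncomputable def bI (c : s → σ → K) (l : s → σ) (m D : ℕ)
    (Sp : s → (σ →₀ ℕ) → MvPolynomial σ K) : Ideal (MvPolynomial σ K) :=
  Ideal.span (bb c l m D Sp '' (Mon σ D))

lemma low_le_bI (c : s → σ → K) (l : s → σ) (m D : ℕ)
    (Sp : s → (σ →₀ ℕ) → MvPolynomial σ K) : low (symb c l m) D ≤ bI c l m D Sp := by
  unfold low
  rw [Ideal.span_le]
  rintro f ⟨hf, j, hj, hfh⟩
  have h1 : f = ∑ ω ∈ Mon σ D, C (coeff ω f) * monomial ω 1 := by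
    conv_lhs => rw [f.as_sum]
    have hsub : f.support ⊆ Mon σ D := by
      intro α hα
      rw [mem_Mon]
      have := hfh.degree_eq_sum_deg_support hα
      rw [Finsupp.degree_apply]
      omega
    rw [Finset.sum_subset hsub]
    · refine Finset.sum_congr rfl fun ω _ => ?_
      rw [C_mul_monomial, mul_one]
    · intro ω _ hω
      rw [notMem_support_iff.mp hω, monomial_zero]
  have h2 : f = ∑ ω ∈ Mon σ D, C (coeff ω f) * bb c l m D Sp ω := by
    have h3 : ∀ ω, C (coeff ω f) * bb c l m D Sp ω = C (coeff ω f) * monomial ω 1 -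
        ∑ i, ∑ α ∈ Mon σ D, C (coeff ω f) * C (tau c l m i α (monomial ω 1)) * Sp i α := by
      intro ω
      unfold bb
      rw [mul_sub, Finset.mul_sum]
      congr 1
      refine Finset.sum_congr rfl fun i _ => ?_
      rw [Finset.mul_sum]
      refine Finset.sum_congr rfl fun α _ => ?_
      ring
    rw [Finset.sum_congr rfl (fun ω _ => h3 ω), Finset.sum_sub_distrib, ← h1]
    have h4 : ∑ ω ∈ Mon σ D, ∑ i, ∑ α ∈ Mon σ D,
        C (coeff ω f) * C (tau c l m i α (monomial ω 1)) * Sp i α = 0 := by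
      rw [Finset.sum_comm]
      refine Finset.sum_eq_zero fun i _ => ?_
      rw [Finset.sum_comm]
      refine Finset.sum_eq_zero fun α _ => ?_
      rw [← Finset.sum_mul]
      have h5 : ∑ ω ∈ Mon σ D, (C (coeff ω f) * C (tau c l m i α (monomial ω 1)) :
          MvPolynomial σ K) = C (tau c l m i α f) := by
        conv_rhs => rw [h1]
        rw [map_sum, map_sum]
        refine Finset.sum_congr rfl fun ω _ => ?_
        rw [← C_mul, ← smul_eq_C_mul (monomial ω (1 : K)), map_smul, smul_eq_mul]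
      rw [h5, tau_eq_zero hf, C_0, zero_mul]
    rw [h4, sub_zero]
  change f ∈ bI c l m D Sp
  rw [h2]
  refine Ideal.sum_mem _ fun ω hω => ?_
  refine Ideal.mul_mem_left _ _ ?_
  exact Ideal.subset_span ⟨ω, hω, rfl⟩

variable {K' : Type*} [CommRing K'] (φ : K →+* K')

lemma tau_map (c : s → σ → K) (l : s → σ) (m : ℕ) (i : s) (α : σ →₀ ℕ)
    (f : MvPolynomial σ K) :
    φ (tau c l m i α f) = tau (fun i j => φ (c i j)) l m i α (map φ f) := by
  rw [tau_apply, tau_apply]
  split_ifs
  · rw [← th_map, coeff_map]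
  · simp

lemma bb_map (c : s → σ → K) (l : s → σ) (m D : ℕ)
    (Sp : s → (σ →₀ ℕ) → MvPolynomial σ K) (ω : σ →₀ ℕ) :
    map φ (bb c l m D Sp ω) =
      bb (fun i j => φ (c i j)) l m D (fun i α => map φ (Sp i α)) ω := by
  unfold bb
  rw [map_sub, map_monomial, map_one, map_sum]
  congr 1
  refine Finset.sum_congr rfl fun i _ => ?_
  rw [map_sum]
  refine Finset.sum_congr rfl fun α _ => ?_
  rw [map_mul, map_C, tau_map, map_monomial, map_one]

lemma bI_map (c : s → σ → K) (l : s → σ) (m D : ℕ)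
    (Sp : s → (σ →₀ ℕ) → MvPolynomial σ K) :
    Ideal.map (map φ) (bI c l m D Sp) =
      bI (fun i j => φ (c i j)) l m D (fun i α => map φ (Sp i α)) := by
  unfold bI
  rw [Ideal.map_span, ← Set.image_comp]
  congr 1
  refine Set.image_congr fun ω _ => ?_
  exact bb_map φ c l m D Sp ω

lemma symb_map {c : s → σ → K} {l : s → σ} {M : ℕ} {f : MvPolynomial σ K}
    (hf : f ∈ symb c l M) : map φ f ∈ symb (fun i j => φ (c i j)) l M := by
  rw [mem_symb] at hf ⊢
  intro i
  have := hf i
  rw [mem_pid_pow_iff] at this ⊢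
  intro α hα
  rw [← th_map, coeff_map] at hα
  apply this
  intro h
  rw [h, map_zero] at hα
  exact hα rfl

lemma symb_of_map {c : s → σ → K} {l : s → σ} {M : ℕ} {f : MvPolynomial σ K}
    (hφ : Function.Injective φ)
    (hf : map φ f ∈ symb (fun i j => φ (c i j)) l M) : f ∈ symb c l M := by
  rw [mem_symb] at hf ⊢
  intro i
  have := hf i
  rw [mem_pid_pow_iff] at this ⊢
  intro α hα
  apply this
  rw [← th_map, coeff_map, Ne, map_eq_zero_iff _ hφ]
  exact hα

/-- The pairing of a vector of coefficients with a polynomial in degree `d`. -/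
noncomputable def pr (d : ℕ) (v : (σ →₀ ℕ) → K) (f : MvPolynomial σ K) : K :=
  ∑ α ∈ MonEq σ d, v α * coeff α f

lemma pr_add (d : ℕ) (v : (σ →₀ ℕ) → K) (f g : MvPolynomial σ K) :
    pr d v (f + g) = pr d v f + pr d v g := by
  unfold pr
  rw [← Finset.sum_add_distrib]
  refine Finset.sum_congr rfl fun α _ => ?_
  rw [coeff_add, mul_add]

lemma pr_zero (d : ℕ) (v : (σ →₀ ℕ) → K) : pr d v 0 = 0 := by
  unfold pr
  simp

lemma pr_C_mul (d : ℕ) (v : (σ →₀ ℕ) → K) (a : K) (f : MvPolynomial σ K) :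
    pr d v (C a * f) = a * pr d v f := by
  unfold pr
  rw [Finset.mul_sum]
  refine Finset.sum_congr rfl fun α _ => ?_
  rw [coeff_C_mul]
  ring

lemma pr_map (d : ℕ) (v : (σ →₀ ℕ) → K) (f : MvPolynomial σ K) :
    φ (pr d v f) = pr d (fun α => φ (v α)) (map φ f) := by
  unfold pr
  rw [map_sum]
  refine Finset.sum_congr rfl fun α _ => ?_
  rw [map_mul, coeff_map]

/-- Vanishing of the pairing on an ideal is inherited by the extended ideal. -/
lemma pr_eq_zero_of_mem_map {d : ℕ} {v : (σ →₀ ℕ) → K} {𝔠 : Ideal (MvPolynomial σ K)}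
    (h : ∀ g ∈ 𝔠, pr d v g = 0) {g : MvPolynomial σ K'} (hg : g ∈ Ideal.map (map φ) 𝔠) :
    pr d (fun α => φ (v α)) g = 0 := by
  suffices H : ∀ a : MvPolynomial σ K', pr d (fun α => φ (v α)) (a * g) = 0 by
    simpa using H 1
  unfold Ideal.map at hg
  refine Submodule.span_induction (p := fun g _ => ∀ a : MvPolynomial σ K',
    pr d (fun α => φ (v α)) (a * g) = 0) ?_ ?_ ?_ ?_ hg
  · rintro _ ⟨c0, hc0, rfl⟩ a
    induction a using MvPolynomial.induction_on' with
    | monomial ω b =>
      have h1 : (monomial ω b : MvPolynomial σ K') = C b * map φ (monomial ω 1) := by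
        rw [map_monomial, map_one, C_mul_monomial, mul_one]
      rw [h1, mul_assoc, pr_C_mul]
      have h2 : map φ (monomial ω 1) * map φ c0 = map φ (monomial ω 1 * c0) := by
        rw [map_mul]
      erw [h2]
      rw [← pr_map, h _ (Ideal.mul_mem_left _ _ hc0), map_zero, mul_zero]
    | add a b ha hb =>
      rw [add_mul, pr_add, ha, hb, add_zero]
  · intro a
    rw [mul_zero, pr_zero]
  · intro x y _ _ hx hy a
    rw [mul_add, pr_add, hx, hy, add_zero]
  · intro b x _ hx a
    rw [smul_eq_mul, ← mul_assoc]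
    exact hx (a * b)

end

end Pool.Agent.Lib22a066
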